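import Pool.Agent.H.MP_48f3d1_lc.Lin.Basic

/-! Chains and cycles of occurrences of the words `x i` in a word. -/

namespace Pool.Agent.H.MP_48f3d1_lc.Cyc

open Polynomial
open Pool.Agent.H.MP_48f3d1_lc.Lin (flat)

/-- `x` occurs in `w` at position `q` -/
def Occ {σ : Type} (x w : List σ) (q : ℕ) : Prop := x <+: w.drop q

/-- powers of a word -/
def pw {σ : Type} (u : List σ) : ℕ → List σ
  | 0 => []
  | n + 1 => u ++ pw u n

/-- a primitive word: no proper nonempty prefix commutes with it -/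
def Prim {σ : Type} (z : List σ) : Prop :=
  z ≠ [] ∧ ∀ r, r <+: z → r ≠ [] → z ++ r = r ++ z → r = z

/-- A cycle of occurrences of the words `x i` in `w`: the coefficient of `X ^ q` in `c i` is the
coefficient of the edge from `q` to `q + |x i|`. -/
def IsCyc {ι σ : Type} [Fintype ι] (x : ι → List σ) (w : List σ) (c : ι → ℤ[X]) : Prop :=
  (∀ i q, (c i).coeff q ≠ 0 → Occ (x i) w q) ∧ ∑ i, c i * (1 - X ^ (x i).length) = 0

/-- All cycles of the family `x` are sums of translates of the cycle `p` in the word `P`. -/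
structure Uni {ι σ : Type} [Fintype ι] (x : ι → List σ) (P : List σ) (p : ι → ℤ[X]) : Prop where
  cyc : IsCyc x P p
  kap : ∃ i, (p i).eval 1 ≠ 0
  bot : ∃ i, (p i).coeff 0 ≠ 0
  top : ∃ i, (x i).length ≤ P.length ∧ (p i).coeff (P.length - (x i).length) ≠ 0
  uni : ∀ w c, IsCyc x w c → ∃ D : ℤ[X], (∀ i, c i = D * p i) ∧ ∀ s, D.coeff s ≠ 0 → Occ P w s

end Pool.Agent.H.MP_48f3d1_lc.Cyc
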