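import Pool.Agent.H.MP_48f3d1_lc.Cyc.Comb

/-! The chain of a word over the unknowns. -/

namespace Pool.Agent.H.MP_48f3d1_lc.Cyc

open Polynomial
open Pool.Agent.H.MP_48f3d1_lc.Lin (flat flat_nil flat_cons flat_append flat_single)

variable {ι σ : Type} [DecidableEq ι]

/-- the edges of the word `u` -/
noncomputable def chain (x : ι → List σ) : List ι → ι → ℤ[X]
  | [] => fun _ => 0
  | a :: u => fun i => (if i = a then 1 else 0) + X ^ (x a).length * chain x u i

theorem chain_nil (x : ι → List σ) (i : ι) : chain x [] i = 0 := rfl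

theorem chain_cons (x : ι → List σ) (a : ι) (u : List ι) (i : ι) :
    chain x (a :: u) i = (if i = a then 1 else 0) + X ^ (x a).length * chain x u i := rfl

theorem chain_append (x : ι → List σ) (u v : List ι) (i : ι) :
    chain x (u ++ v) i = chain x u i + X ^ (flat x u).length * chain x v i := by
  induction u with
  | nil => rw [List.nil_append, chain_nil, flat_nil, List.length_nil, pow_zero, one_mul, zero_add]
  | cons a u ih =>
    rw [List.cons_append, chain_cons, chain_cons, ih, flat_cons, List.length_append, pow_add]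
    ring

theorem chain_sum [Fintype ι] (x : ι → List σ) (u : List ι) :
    ∑ i, chain x u i * (1 - X ^ (x i).length) = 1 - X ^ (flat x u).length := by
  induction u with
  | nil => simp [chain_nil, flat_nil]
  | cons a u ih =>
    have h1 : ∀ i, chain x (a :: u) i * (1 - X ^ (x i).length) =
        (if i = a then (1 - X ^ (x a).length : ℤ[X]) else 0) +
          X ^ (x a).length * (chain x u i * (1 - X ^ (x i).length)) := by
      intro i
      rw [chain_cons]
      split_ifs with h
      · rw [h]
        ring
      · ring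
    rw [Finset.sum_congr rfl fun i _ => h1 i, Finset.sum_add_distrib, ← Finset.mul_sum, ih,
      Finset.sum_ite_eq' Finset.univ a, if_pos (Finset.mem_univ a), flat_cons, List.length_append,
      pow_add]
    ring

theorem chain_eval (x : ι → List σ) (u : List ι) (i : ι) :
    (chain x u i).eval 1 = (u.count i : ℤ) := by
  induction u with
  | nil => simp [chain_nil]
  | cons a u ih =>
    rw [chain_cons, eval_add, eval_mul, eval_pow, eval_X, one_pow, one_mul, ih, List.count_cons]
    push_cast
    rw [add_comm]
    congr 1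
    by_cases h : i = a
    · subst h
      simp
    · rw [if_neg h, eval_zero, if_neg]
      intro h'
      exact h (eq_comm.1 (by simpa using h'))

theorem chain_nonneg (x : ι → List σ) (u : List ι) (i : ι) (q : ℕ) :
    0 ≤ (chain x u i).coeff q := by
  induction u generalizing q with
  | nil => rw [chain_nil, coeff_zero]
  | cons a u ih =>
    rw [chain_cons, coeff_add, coeff_X_pow_mul']
    have h1 : (0 : ℤ) ≤ ((if i = a then 1 else 0 : ℤ[X])).coeff q := by
      split_ifs
      · rw [coeff_one]
        split_ifs
        · exact zero_le_one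
        · exact le_rfl
      · rw [coeff_zero]
    have h2 : (0 : ℤ) ≤ if (x a).length ≤ q then (chain x u i).coeff (q - (x a).length) else 0 := by
      split_ifs
      · exact ih _
      · exact le_rfl
    exact add_nonneg h1 h2

/-- an edge of `u` comes from a letter of `u` -/
theorem chain_mem (x : ι → List σ) (u : List ι) (i : ι) (q : ℕ) (h : (chain x u i).coeff q ≠ 0) :
    ∃ u1 u2, u = u1 ++ i :: u2 ∧ (flat x u1).length = q := by
  induction u generalizing q with
  | nil =>
    rw [chain_nil, coeff_zero] at h
    exact absurd rfl h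
  | cons a u ih =>
    rw [chain_cons, coeff_add] at h
    by_cases h1 : ((if i = a then 1 else 0 : ℤ[X])).coeff q = 0
    · rw [h1, zero_add, coeff_X_pow_mul'] at h
      split_ifs at h with h2
      · obtain ⟨u1, u2, h3, h4⟩ := ih _ h
        refine ⟨a :: u1, u2, by rw [h3]; rfl, ?_⟩
        rw [flat_cons, List.length_append, h4]
        omega
      · exact absurd rfl h
    · split_ifs at h1 with h2
      · have h3 : q = 0 := by
          by_contra h4
          rw [coeff_one, if_neg h4] at h1
          exact h1 rfl
        refine ⟨[], u, by rw [h2]; rfl, ?_⟩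
        rw [flat_nil, h3]
        rfl
      · rw [coeff_zero] at h1
        exact absurd rfl h1

theorem coeff_of_mem (x : ι → List σ) (u1 u2 : List ι) (i : ι) :
    1 ≤ (chain x (u1 ++ i :: u2) i).coeff (flat x u1).length := by
  have h1 := chain_nonneg x u1 i (flat x u1).length
  have h2 := chain_nonneg x u2 i
  rw [chain_append, coeff_add, coeff_X_pow_mul', if_pos le_rfl, Nat.sub_self, chain_cons, coeff_add,
    coeff_X_pow_mul', if_pos rfl, coeff_one_zero]
  have h3 : (0 : ℤ) ≤ if (x i).length ≤ 0 then (chain x u2 i).coeff (0 - (x i).length) else 0 := by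
    split_ifs
    · exact h2 _
    · exact le_rfl
  linarith

theorem chain_occ (x : ι → List σ) (u : List ι) (i : ι) (q : ℕ)
    (h : (chain x u i).coeff q ≠ 0) : Occ (x i) (flat x u) q := by
  obtain ⟨u1, u2, rfl, rfl⟩ := chain_mem x u i q h
  unfold Occ
  rw [flat_append, List.drop_left, flat_cons]
  exact List.prefix_append _ _

theorem chain_lt (x : ι → List σ) (hx : ∀ i, x i ≠ []) (u : List ι) (i : ι) (q : ℕ)
    (h : (chain x u i).coeff q ≠ 0) : q < (flat x u).length := by
  have h1 := chain_occ x u i q h
  have := occ_le h1 (hx i)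
  have := List.length_pos_of_ne_nil (hx i)
  omega

theorem chain_zero (x : ι → List σ) (hx : ∀ i, x i ≠ []) (a : ι) (u : List ι) (i : ι) :
    (chain x (a :: u) i).coeff 0 = if i = a then 1 else 0 := by
  have h1 := List.length_pos_of_ne_nil (hx a)
  have h2 : ¬ (x a).length ≤ 0 := by omega
  rw [chain_cons, coeff_add, coeff_X_pow_mul', if_neg h2, add_zero]
  split_ifs
  · rw [coeff_one_zero]
  · rw [coeff_zero]

/-- the difference of the chains of the two sides of a relation is a cycle -/
theorem chain_cyc [Fintype ι] {x : ι → List σ} {u v : List ι} (h : flat x u = flat x v) :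
    IsCyc x (flat x u) (fun i => chain x u i - chain x v i) := by
  refine ⟨?_, ?_⟩
  · intro i q hq
    simp only [coeff_sub] at hq
    by_cases h1 : (chain x u i).coeff q = 0
    · rw [h1, zero_sub, neg_ne_zero] at hq
      rw [h]
      exact chain_occ x v i q hq
    · exact chain_occ x u i q h1
  · have h1 : ∀ i, (chain x u i - chain x v i) * (1 - X ^ (x i).length) =
        chain x u i * (1 - X ^ (x i).length) - chain x v i * (1 - X ^ (x i).length) := fun i =>
      sub_mul _ _ _
    rw [Finset.sum_congr rfl fun i _ => h1 i, Finset.sum_sub_distrib, chain_sum, chain_sum, h,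
      sub_self]

/-- the letters of `u` which start before the position `T` -/
theorem split_at (x : ι → List σ) (u : List ι) (T : ℕ) (hT : T ≤ (flat x u).length) :
    ∃ u1 u2, u = u1 ++ u2 ∧ (∀ i q, (chain x u1 i).coeff q ≠ 0 → q < T) ∧
      T ≤ (flat x u1).length := by
  induction u generalizing T with
  | nil =>
    refine ⟨[], [], rfl, ?_, hT⟩
    intro i q h
    rw [chain_nil, coeff_zero] at h
    exact absurd rfl h
  | cons a u ih =>
    rcases Nat.eq_zero_or_pos T with h0 | h0
    · refine ⟨[], a :: u, rfl, ?_, by omega⟩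
      intro i q h
      rw [chain_nil, coeff_zero] at h
      exact absurd rfl h
    · rw [flat_cons, List.length_append] at hT
      obtain ⟨u1, u2, h1, h2, h3⟩ := ih (T - (x a).length) (by omega)
      refine ⟨a :: u1, u2, by rw [h1]; rfl, ?_, ?_⟩
      · intro i q h
        rw [chain_cons, coeff_add] at h
        by_cases h4 : ((if i = a then 1 else 0 : ℤ[X])).coeff q = 0
        · rw [h4, zero_add, coeff_X_pow_mul'] at h
          split_ifs at h with h5
          · have := h2 i _ h
            omega
          · exact absurd rfl h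
        · split_ifs at h4 with h2
          · have h3 : q = 0 := by
              by_contra h5
              rw [coeff_one, if_neg h5] at h4
              exact h4 rfl
            omega
          · rw [coeff_zero] at h4
            exact absurd rfl h4
      · rw [flat_cons, List.length_append]
        omega

/-- the sum of the coefficients at the multiples of `π` -/
noncomputable def res (π : ℕ) : ℤ[X] →ₗ[ℤ] ℤ :=
  Polynomial.lsum fun q => if π ∣ q then LinearMap.id else 0

theorem res_apply (π : ℕ) (p : ℤ[X]) :
    res π p = ∑ q ∈ p.support, if π ∣ q then p.coeff q else 0 := by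
  unfold res
  rw [lsum_apply, sum_def]
  refine Finset.sum_congr rfl fun q _ => ?_
  split_ifs
  · rfl
  · rfl

theorem res_monomial (π q : ℕ) (c : ℤ) : res π (monomial q c) = if π ∣ q then c else 0 := by
  unfold res
  rw [lsum_apply, sum_monomial_index]
  · split_ifs
    · rfl
    · rfl
  · rw [map_zero]

theorem res_pow_mul {π s : ℕ} (h : π ∣ s) (p : ℤ[X]) : res π (X ^ s * p) = res π p := by
  induction p using Polynomial.induction_on' with
  | add p q hp hq => rw [mul_add, map_add, map_add, hp, hq]
  | monomial n c =>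
    have h1 : (X ^ s * monomial n c : ℤ[X]) = monomial (s + n) c := by
      rw [X_pow_eq_monomial, monomial_mul_monomial, one_mul]
    rw [h1, res_monomial, res_monomial]
    simp only [(Nat.dvd_add_right h)]

theorem res_mul {π : ℕ} {D : ℤ[X]} (h : ∀ s, D.coeff s ≠ 0 → π ∣ s) (p : ℤ[X]) :
    res π (D * p) = D.eval 1 * res π p := by
  have h1 : D * p = ∑ s ∈ D.support, D.coeff s • (X ^ s * p) := by
    conv_lhs => rw [D.as_sum_support_C_mul_X_pow]
    rw [Finset.sum_mul]
    refine Finset.sum_congr rfl fun s _ => ?_
    rw [mul_assoc, smul_eq_C_mul]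
  rw [h1, map_sum, eval_eq_sum, sum_def, Finset.sum_mul]
  refine Finset.sum_congr rfl fun s hs => ?_
  rw [map_smul, res_pow_mul (h s (mem_support_iff.1 hs)), one_pow, mul_one, smul_eq_mul]

theorem res_of {π : ℕ} {p : ℤ[X]} (h : ∀ q, p.coeff q ≠ 0 → π ∣ q → q = 0) :
    res π p = p.coeff 0 := by
  rw [res_apply, Finset.sum_eq_single 0]
  · rw [if_pos (dvd_zero _)]
  · intro q hq h0
    split_ifs with h1
    · exact absurd (h q (mem_support_iff.1 hq) h1) h0
    · rfl
  · intro h0
    rw [if_pos (dvd_zero _)]
    exact notMem_support_iff.1 h0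

theorem exists_of_res {π : ℕ} {p : ℤ[X]} (h : res π p ≠ 0) : ∃ q, π ∣ q ∧ p.coeff q ≠ 0 := by
  rw [res_apply] at h
  obtain ⟨q, -, h1⟩ := Finset.exists_ne_zero_of_sum_ne_zero h
  split_ifs at h1 with h2
  · exact ⟨q, h2, h1⟩
  · exact absurd rfl h1

theorem le_res {π : ℕ} {p : ℤ[X]} (h : ∀ q, 0 ≤ p.coeff q) : p.coeff 0 ≤ res π p := by
  rw [res_apply]
  have h1 : ∀ q ∈ p.support, (0 : ℤ) ≤ if π ∣ q then p.coeff q else 0 := by
    intro q _
    split_ifs
    · exact h q
    · exact le_rfl
  by_cases h0 : p.coeff 0 = 0
  · rw [h0]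
    exact Finset.sum_nonneg h1
  · have h2 := Finset.single_le_sum h1 (mem_support_iff.2 h0)
    rwa [if_pos (dvd_zero _)] at h2

omit [DecidableEq ι] in
theorem flat_pw (x : ι → List σ) (u : List ι) (k : ℕ) : flat x (pw u k) = pw (flat x u) k := by
  induction k with
  | zero => rfl
  | succ k ih => rw [pw_succ, pw_succ, flat_append, ih]

theorem res_chain_pw {π : ℕ} (x : ι → List σ) (u : List ι) (h : π ∣ (flat x u).length) (k : ℕ)
    (i : ι) : res π (chain x (pw u k) i) = k * res π (chain x u i) := by
  induction k with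
  | zero => rw [pw_zero, chain_nil, map_zero, Nat.cast_zero, zero_mul]
  | succ k ih =>
    rw [pw_succ, chain_append, map_add, res_pow_mul h, ih]
    push_cast
    ring

/-- the part of `u` before the first positive multiple of `π` which is a cut of `u` -/
theorem first_cut {π : ℕ} (x : ι → List σ) (u1 u2 : List ι)
    (h0 : u1 ≠ []) (h : π ∣ (flat x u1).length) :
    ∃ v1 v2, u1 ++ u2 = v1 ++ v2 ∧ v1 ≠ [] ∧ π ∣ (flat x v1).length ∧
      ∀ i q, (chain x v1 i).coeff q ≠ 0 → π ∣ q → q = 0 := by
  classical
  have hex : ∃ n, ∃ v1 v2, u1 ++ u2 = v1 ++ v2 ∧ v1 ≠ [] ∧ π ∣ (flat x v1).length ∧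
      v1.length = n := ⟨_, u1, u2, rfl, h0, h, rfl⟩
  obtain ⟨v1, v2, h1, h2, h3, h4⟩ := Nat.find_spec hex
  refine ⟨v1, v2, h1, h2, h3, ?_⟩
  intro i q h5 h6
  by_contra h7
  obtain ⟨w1, w2, h8, h9⟩ := chain_mem x v1 i q h5
  have h10 : w1 ≠ [] := by
    rintro rfl
    rw [flat_nil] at h9
    exact h7 h9.symm
  have h11 : w1.length < Nat.find hex := by
    rw [← h4, h8, List.length_append, List.length_cons]
    omega
  exact Nat.find_min hex h11 ⟨w1, i :: w2 ++ v2, by rw [h1, h8]; simp, h10, by rwa [h9], rfl⟩

end Pool.Agent.H.MP_48f3d1_lc.Cyc
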