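import Pool.Agent.H.MP_48f3d1_lc.Cyc.Words

/-! The combinatorial lemma on translates of a polynomial whose terms are preceded by a word. -/

namespace Pool.Agent.H.MP_48f3d1_lc.Cyc

open Polynomial

variable {σ : Type}

/-- if the coefficient vanishes, there is another term -/
theorem other_term {D p : ℤ[X]} {s q : ℕ} (hD : D.coeff s ≠ 0) (hp : p.coeff q ≠ 0)
    (h : (D * p).coeff (s + q) = 0) :
    ∃ s' q', s' + q' = s + q ∧ s' ≠ s ∧ D.coeff s' ≠ 0 ∧ p.coeff q' ≠ 0 := by
  by_contra hcon
  push Not at hcon
  rw [coeff_mul, Finset.sum_eq_single (s, q)] at h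
  · rcases mul_eq_zero.1 h with h | h
    · exact hD h
    · exact hp h
  · rintro ⟨s', q'⟩ h1 h2
    rw [Finset.HasAntidiagonal.mem_antidiagonal] at h1
    simp only at h1 ⊢
    by_cases h3 : D.coeff s' = 0
    · rw [h3, zero_mul]
    · have h4 : s' ≠ s := by
        rintro rfl
        apply h2
        rw [Prod.mk.injEq]
        exact ⟨rfl, by omega⟩
      rw [hcon s' q' h1 h4 h3, mul_zero]
  · intro h1
    exact absurd (Finset.HasAntidiagonal.mem_antidiagonal.2 (by rfl)) h1

theorem trail_le {p : ℤ[X]} {q : ℕ} (h : p.coeff q ≠ 0) : p.natTrailingDegree ≤ q :=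
  natTrailingDegree_le_of_ne_zero h

theorem trail_ne {p : ℤ[X]} (h : p ≠ 0) : p.coeff p.natTrailingDegree ≠ 0 :=
  trailingCoeff_nonzero_iff_nonzero.2 h

theorem take_occ {P w : List σ} {s q : ℕ} (h : Occ P w s) (hq : q ≤ P.length) :
    w.take (s + q) = w.take s ++ P.take q := by
  rw [List.take_add]
  congr 1
  obtain ⟨t, ht⟩ := h
  rw [← ht, List.take_append_of_le_length hq]

theorem drop_occ {P w : List σ} {s : ℕ} (h : Occ P w s) (q : ℕ) : P.drop q <+: w.drop (s + q) := by
  have := h.drop q
  rwa [List.drop_drop] at this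

theorem occ_le {P w : List σ} {s : ℕ} (h : Occ P w s) (hP : P ≠ []) : s + P.length ≤ w.length := by
  have h1 := h.length_le
  rw [List.length_drop] at h1
  have := List.length_pos_of_ne_nil hP
  omega

theorem take_split {P : List σ} {q0 q : ℕ} (h : q0 ≤ q) :
    P.take q = P.take q0 ++ (P.take q).drop q0 := by
  conv_lhs => rw [← List.take_append_drop q0 (P.take q)]
  rw [List.take_take, min_eq_left h]

theorem suffix_append_right {a b c : List σ} (h : a <:+ b) : a ++ c <:+ b ++ c := by
  obtain ⟨t, ht⟩ := h
  exact ⟨t, by rw [← List.append_assoc, ht]⟩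

theorem suffix_cancel {a b c : List σ} (h : a ++ c <:+ b ++ c) : a <:+ b := by
  obtain ⟨t, ht⟩ := h
  rw [← List.append_assoc] at ht
  exact ⟨t, List.append_cancel_right ht⟩

/-- the first step: the prefixes `P.take q` and `y` are comparable -/
theorem comp_suffix {P y w : List σ} {D p : ℤ[X]} (h1 : ∀ s, D.coeff s ≠ 0 → Occ P w s)
    (h2 : ∀ q, p.coeff q ≠ 0 → q < P.length) (h3 : ∀ r, (D * p).coeff r ≠ 0 → y <:+ w.take r)
    (hD : D ≠ 0) : ∀ q, p.coeff q ≠ 0 → P.take q <:+ y ∨ y <:+ P.take q := by
  classical
  by_contra hcon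
  push Not at hcon
  obtain ⟨q1, hq1, hq1'⟩ := hcon
  have hne : (p.support.filter fun q => ¬ P.take q <:+ y ∧ ¬ y <:+ P.take q).Nonempty :=
    ⟨q1, Finset.mem_filter.2 ⟨mem_support_iff.2 hq1, hq1'⟩⟩
  set q := (p.support.filter fun q => ¬ P.take q <:+ y ∧ ¬ y <:+ P.take q).max' hne with hq
  have hqm := Finset.max'_mem _ hne
  rw [← hq, Finset.mem_filter, mem_support_iff] at hqm
  obtain ⟨hq2, hq3, hq4⟩ := hqm
  have hmax : ∀ q', p.coeff q' ≠ 0 → q < q' → P.take q' <:+ y ∨ y <:+ P.take q' := by
    intro q' h4 h5
    by_contra hcon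
    push Not at hcon
    have h6 : q' ∈ p.support.filter fun q => ¬ P.take q <:+ y ∧ ¬ y <:+ P.take q :=
      Finset.mem_filter.2 ⟨mem_support_iff.2 h4, hcon⟩
    have := Finset.le_max' _ q' h6
    rw [← hq] at this
    omega
  have hs1 : D.coeff D.natDegree ≠ 0 := leadingCoeff_ne_zero.2 hD
  set s1 := D.natDegree with hs1'
  have ht1 : w.take (s1 + q) = w.take s1 ++ P.take q := take_occ (h1 s1 hs1) (h2 q hq2).le
  by_cases h0 : (D * p).coeff (s1 + q) = 0
  · obtain ⟨s, q', h4, h5, h6, h7⟩ := other_term hs1 hq2 h0
    have h8 : s ≤ s1 := le_natDegree_of_ne_zero h6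
    have h9 : q < q' := by omega
    have ht2 : w.take (s + q') = w.take s ++ P.take q' := take_occ (h1 s h6) (h2 q' h7).le
    rw [h4, ht1] at ht2
    have h10 : P.take q <:+ P.take q' := by
      refine suffix_of (List.suffix_append (w.take s1) _) (ht2 ▸ List.suffix_append _ _) ?_
      rw [List.length_take, List.length_take]
      have := h2 q' h7
      omega
    rcases hmax q' h7 h9 with h11 | h11
    · exact hq3 (h10.trans h11)
    · rcases Nat.le_total (P.take q).length y.length with h12 | h12
      · exact hq3 (suffix_of h10 h11 h12)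
      · exact hq4 (suffix_of h11 h10 h12)
  · have h4 := h3 _ h0
    rw [ht1] at h4
    have h5 : P.take q <:+ w.take s1 ++ P.take q := List.suffix_append _ _
    rcases Nat.le_total (P.take q).length y.length with h12 | h12
    · exact hq3 (suffix_of h5 h4 h12)
    · exact hq4 (suffix_of h4 h5 h12)

theorem low_ne {D p : ℤ[X]} (hD : D ≠ 0) (hp : p ≠ 0) :
    (D * p).coeff (D.natTrailingDegree + p.natTrailingDegree) ≠ 0 := by
  intro h
  obtain ⟨s, q, h1, h2, h3, h4⟩ := other_term (trail_ne hD) (trail_ne hp) h
  have := trail_le h3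
  have := trail_le h4
  omega

/-- every term of the first translate is preceded by `y` -/
theorem first_ok {P y w : List σ} {D p : ℤ[X]} (h1 : ∀ s, D.coeff s ≠ 0 → Occ P w s)
    (h2 : ∀ q, p.coeff q ≠ 0 → q < P.length) (h3 : ∀ r, (D * p).coeff r ≠ 0 → y <:+ w.take r)
    (hD : D ≠ 0) (hp : p ≠ 0) : ∀ q, p.coeff q ≠ 0 → y <:+ w.take (D.natTrailingDegree + q) := by
  classical
  set s0 := D.natTrailingDegree with hs0
  set q0 := p.natTrailingDegree with hq0
  have hDs0 : D.coeff s0 ≠ 0 := trail_ne hD
  have hpq0 : p.coeff q0 ≠ 0 := trail_ne hp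
  have hok0 : y <:+ w.take (s0 + q0) := h3 _ (low_ne hD hp)
  have hP : P ≠ [] := by
    rintro rfl
    exact absurd (h2 q0 hpq0) (by simp)
  -- the part of `P` between `q0` and `q`
  have hK : ∀ s q, D.coeff s ≠ 0 → p.coeff q ≠ 0 →
      w.take (s + q) = w.take (s + q0) ++ (P.take q).drop q0 := by
    intro s q h4 h5
    rw [take_occ (h1 s h4) (h2 q h5).le, take_occ (h1 s h4) (h2 q0 hpq0).le,
      List.append_assoc, ← take_split (trail_le h5)]
  obtain ⟨v0, hv0⟩ := hok0
  have hiff : ∀ r v, w.take r = w.take (s0 + q0) ++ v → (y <:+ w.take r ↔ y <:+ y ++ v) := by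
    intro r v h4
    rw [h4, ← hv0, List.append_assoc]
    constructor
    · intro h5
      exact suffix_of h5 (List.suffix_append _ _) (by simp)
    · intro h5
      exact h5.trans (List.suffix_append _ _)
  by_contra hcon
  push Not at hcon
  obtain ⟨hqs, hqs'⟩ := Nat.find_spec hcon
  have hmin : ∀ q, q < Nat.find hcon → p.coeff q ≠ 0 → y <:+ w.take (s0 + q) := by
    intro q hq hpq
    by_contra h4
    exact Nat.find_min hcon hq ⟨hpq, h4⟩
  set qs := Nat.find hcon with hqs0
  have hq0s : q0 < qs := by
    rcases (trail_le hqs).lt_or_eq with h4 | h4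
    · exact h4
    · exfalso
      apply hqs'
      rw [← h4]
      exact ⟨v0, hv0⟩
  set k := (P.take qs).drop q0 with hk
  have hkl : k.length = qs - q0 := by
    rw [hk, List.length_drop, List.length_take, min_eq_left (h2 qs hqs).le]
  have hk0 : k ≠ [] := by
    intro h4
    rw [h4, List.length_nil] at hkl
    omega
  -- `y` does not end before the word `k`
  have hbad : ¬ y <:+ y ++ k := by
    intro h4
    exact hqs' ((hiff _ _ (hK s0 qs hDs0 hqs)).2 h4)
  have hPy : P.take qs <:+ y := by
    rcases comp_suffix h1 h2 h3 hD qs hqs with h4 | h4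
    · exact h4
    · exfalso
      apply hqs'
      rw [take_occ (h1 s0 hDs0) (h2 qs hqs).le]
      exact h4.trans (List.suffix_append _ _)
  have hky : k <:+ y := (List.drop_suffix _ _).trans hPy
  have hmis : ∀ r v, w.take r = w.take (s0 + q0) ++ v → v ≠ [] → k ++ v = v ++ k →
      (D * p).coeff r = 0 := by
    intro r v h4 h5 h6
    by_contra h7
    exact hbad (W2 h5 ((hiff r v h4).1 (h3 r h7)) h6)
  obtain ⟨s, q', h4, h5, h6, h7⟩ := other_term hDs0 hqs (hmis _ _ (hK s0 qs hDs0 hqs) hk0 rfl)
  have h8 := trail_le h6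
  have h9 := trail_le h7
  have hss0 : s0 < s := by omega
  have hq's : q' < qs := by omega
  rcases h9.lt_or_eq with h10 | h10
  · -- a proper prefix of `k` which commutes with `k`
    set l := (P.take q').drop q0 with hl
    have hll : l.length = q' - q0 := by
      rw [hl, List.length_drop, List.length_take, min_eq_left (h2 q' h7).le]
    have hl0 : l ≠ [] := by
      intro h4
      rw [h4, List.length_nil] at hll
      omega
    have hlk : l <+: k := by
      rw [hl, hk]
      apply List.IsPrefix.drop
      have : P.take q' = (P.take qs).take q' := by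
        rw [List.take_take, min_eq_left hq's.le]
      rw [this]
      exact List.take_prefix _ _
    have h11 : y <:+ y ++ l := (hiff _ _ (hK s0 q' hDs0 h7)).1 (hmin q' hq's h7)
    have h12 : k <:+ k ++ l := suffix_of (hky.trans h11) (suffix_append_right hky) (by simp)
    exact hbad (W2 hl0 h11 (W1 hlk h12))
  · -- the translate by the length of `k`
    rw [← hq0] at h10
    have hsk : s = s0 + k.length := by omega
    set R := P.drop q0 with hR
    have hRl : R.length = P.length - q0 := by rw [hR, List.length_drop]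
    have hqsP := h2 qs hqs
    have hkR : k <+: R := by
      rw [hk, hR]
      exact (List.take_prefix _ _).drop _
    have hRw : ∀ s, D.coeff s ≠ 0 → R <+: w.drop (s + q0) := fun s hs => drop_occ (h1 s hs) q0
    have hkw : w.drop (s0 + q0) = k ++ w.drop (s + q0) := by
      obtain ⟨t, ht⟩ := hkR.trans (hRw s0 hDs0)
      have h11 : w.drop (s + q0) = (w.drop (s0 + q0)).drop k.length := by
        rw [List.drop_drop, hsk]
        congr 1
        omega
      rw [h11, ← ht, List.drop_left]
    have hRk : R <+: k ++ R := by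
      refine prefix_of (hRw s0 hDs0) ?_ (by simp)
      rw [hkw]
      exact (List.prefix_append_right_inj _).2 (hRw s h6)
    obtain ⟨N0, hN0⟩ := per hk0 hRk
    obtain ⟨z, A, hz, hkz⟩ := prim_root hk0
    rw [hkz, ← pw_mul] at hN0
    set M := A * N0 with hM
    set e := z.length with he
    have he0 : 0 < e := List.length_pos_of_ne_nil hz.1
    have hkA : k.length = A * e := by rw [hkz, length_pw]
    have hA : 1 ≤ A := by
      rcases Nat.eq_zero_or_pos A with h11 | h11
      · exfalso
        apply hk0
        rw [hkz, h11, pw_zero]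
      · exact h11
    have hek : e ≤ k.length := by
      rw [hkA]
      exact Nat.le_mul_of_pos_left _ hA
    have hzk : z <+: k := by
      have := pw_prefix z hA
      rwa [pw_one, ← hkz] at this
    have hzR : z <+: R := hzk.trans hkR
    have hzy : z <:+ y := by
      have := pw_suffix z hA
      rw [pw_one, ← hkz] at this
      exact this.trans hky
    have hcz : ∀ i, k ++ pw z i = pw z i ++ k := by
      intro i
      rw [hkz, ← pw_add, ← pw_add, Nat.add_comm]
    have hpw0 : ∀ i, 1 ≤ i → pw z i ≠ [] := by
      intro i hi h11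
      have := congrArg List.length h11
      rw [length_pw, List.length_nil, ← he] at this
      rcases Nat.mul_eq_zero.1 this with h12 | h12
      · omega
      · omega
    -- the translates in the region of the powers of `z`
    set T := D.support.filter fun s => ∃ j, s = s0 + j * e ∧
      w.take (s + q0) = w.take (s0 + q0) ++ pw z j with hT
    have hTne : T.Nonempty := ⟨s0, Finset.mem_filter.2 ⟨mem_support_iff.2 hDs0, 0, by simp, by
      rw [pw_zero, List.append_nil]⟩⟩
    have hTmem : ∀ s, D.coeff s ≠ 0 → ∀ j, s = s0 + j * e →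
        w.take (s + q0) = w.take (s0 + q0) ++ pw z j → s ∈ T := fun s hs j hj hj' =>
      Finset.mem_filter.2 ⟨mem_support_iff.2 hs, j, hj, hj'⟩
    obtain ⟨hsm1, jm, hsm2, hsm3⟩ := Finset.mem_filter.1 (Finset.max'_mem T hTne)
    have hsmax : ∀ s ∈ T, s ≤ T.max' hTne := fun s hs => Finset.le_max' T s hs
    set sm := T.max' hTne with hsm
    rw [mem_support_iff] at hsm1
    set Q := p.support.filter fun q => e ∣ q - q0 with hQ
    have hQqs : qs ∈ Q := Finset.mem_filter.2 ⟨mem_support_iff.2 hqs, by
      rw [← hkl, hkA]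
      exact Nat.dvd_mul_left e A⟩
    have hQne : Q.Nonempty := ⟨qs, hQqs⟩
    obtain ⟨hqM1, i0, hi0⟩ := Finset.mem_filter.1 (Finset.max'_mem Q hQne)
    have hqmax : ∀ q ∈ Q, q ≤ Q.max' hQne := fun q hq => Finset.le_max' Q q hq
    set qM := Q.max' hQne with hqM
    rw [mem_support_iff] at hqM1
    have hqsM := hqmax qs hQqs
    have hqMP := h2 qM hqM1
    have hi1 : 1 ≤ i0 := by
      rcases Nat.eq_zero_or_pos i0 with h11 | h11
      · rw [h11, Nat.mul_zero] at hi0
        omega
      · exact h11
    have hKM : (P.take qM).drop q0 = pw z i0 := by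
      have h11 : (P.take qM).drop q0 <+: R := (List.take_prefix _ _).drop _
      refine eq_pw (h11.trans hN0) ?_ hz.1
      rw [List.length_drop, List.length_take, min_eq_left hqMP.le, hi0, ← he, Nat.mul_comm]
    have hr : w.take (sm + qM) = w.take (s0 + q0) ++ pw z (jm + i0) := by
      rw [hK sm qM hsm1 hqM1, hKM, hsm3, List.append_assoc, ← pw_add]
    have hr0 : (D * p).coeff (sm + qM) = 0 :=
      hmis _ _ hr (hpw0 _ (by omega)) (hcz _)
    have hsmw : sm + P.length ≤ w.length := occ_le (h1 sm hsm1) hP
    -- occurrences of `z` in this region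
    have hocc : ∀ s, D.coeff s ≠ 0 → s0 ≤ s → s + q0 + e ≤ sm + P.length → 
        ∃ j, s = s0 + j * e ∧ w.take (s + q0) = w.take (s0 + q0) ++ pw z j := by
      intro s hs hs0' hle
      have hZ : pw z jm ++ R <+: w.drop (s0 + q0) := by
        have h11 : w.drop (s0 + q0) = pw z jm ++ w.drop (sm + q0) := by
          have h12 : w.take (s0 + q0) ++ w.drop (s0 + q0) =
              w.take (s0 + q0) ++ (pw z jm ++ w.drop (sm + q0)) := by
            rw [← List.append_assoc, ← hsm3, List.take_append_drop, List.take_append_drop]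
          exact List.append_cancel_left h12
        rw [h11]
        exact (List.prefix_append_right_inj _).2 (hRw sm hsm1)
      have hZ' : pw z jm ++ R <+: pw z (jm + M) := by
        rw [pw_add]
        exact (List.prefix_append_right_inj _).2 hN0
      have hZl : (pw z jm ++ R).length = jm * e + (P.length - q0) := by
        rw [List.length_append, length_pw, hRl]
      have h11 : z <+: (w.drop (s0 + q0)).drop (s - s0) := by
        rw [List.drop_drop]
        have h12 : s0 + q0 + (s - s0) = s + q0 := by omega
        rw [h12]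
        exact hzR.trans (hRw s hs)
      have h12 : z <+: (pw z jm ++ R).drop (s - s0) := by
        refine prefix_of h11 (hZ.drop _) ?_
        rw [List.length_drop, hZl]
        omega
      have h13 := prim_occ hz (h12.trans (hZ'.drop _))
      obtain ⟨j, hj⟩ := h13
      rw [← he] at hj
      refine ⟨j, ?_, ?_⟩
      · rw [Nat.mul_comm, ← hj]
        omega
      · have h14 : s + q0 = s0 + q0 + (s - s0) := by omega
        rw [h14, List.take_add]
        congr 1
        obtain ⟨t, ht⟩ := hZ
        rw [← ht, List.take_append_of_le_length (by rw [hZl]; omega)]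
        refine eq_pw ((List.take_prefix _ _).trans hZ') ?_ hz.1
        rw [List.length_take, hZl, min_eq_left (by omega), hj, Nat.mul_comm]
    obtain ⟨s', q'', h11, h12, h13, h14⟩ := other_term hsm1 hqM1 hr0
    have h15 := trail_le h13
    have h16 := trail_le h14
    rw [← hs0] at h15
    rw [← hq0] at h16
    rcases Nat.lt_or_gt_of_ne h12 with h17 | h17
    · obtain ⟨j, hj, -⟩ := hocc s' h13 h15 (by omega)
      have h18 : q'' ∈ Q := by
        refine Finset.mem_filter.2 ⟨mem_support_iff.2 h14, ?_⟩
        have h19 : q'' - q0 = (jm * e - j * e) + e * i0 := by omega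
        rw [h19]
        refine Nat.dvd_add (Nat.dvd_sub (Nat.dvd_mul_left _ _) (Nat.dvd_mul_left _ _))
          (Nat.dvd_mul_right _ _)
      have := hqmax q'' h18
      omega
    · by_cases h18 : s' + q0 + e ≤ sm + P.length
      · obtain ⟨j, hj, hj'⟩ := hocc s' h13 h15 h18
        have := hsmax s' (hTmem s' h13 j hj hj')
        omega
      · rcases h16.lt_or_eq with h19 | h19
        · -- a proper prefix of `z`
          have hqe : q'' - q0 < e := by omega
          have h20 : y <:+ w.take (s0 + q'') := hmin q'' (by omega) h14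
          have h21 := (hiff _ _ (hK s0 q'' hDs0 h14)).1 h20
          have h22 : (P.take q'').drop q0 = z.take (q'' - q0) := by
            have h23 : (P.take q'').drop q0 = R.take (q'' - q0) := by
              rw [hR, List.drop_take]
            rw [h23]
            obtain ⟨t, ht⟩ := hzR
            rw [← ht, List.take_append_of_le_length (by omega)]
          rw [h22] at h21
          have h23 : z <:+ z ++ z.take (q'' - q0) :=
            suffix_of (hzy.trans h21) (suffix_append_right hzy) (by simp)
          exact prim_take hz (by omega) hqe (W1 (List.take_prefix _ _) h23)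
        · have h20 : s' ∈ T := by
            refine hTmem s' h13 (jm + i0) ?_ ?_
            · have h21 : (jm + i0) * e = jm * e + e * i0 := by ring
              omega
            · rw [← hr, ← h11, h19]
          have := hsmax s' h20
          omega

end Pool.Agent.H.MP_48f3d1_lc.Cyc
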