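import Pool.Agent.H.MP_48f3d1_lc.Cyc.Lift

/-! Families of words of corank one: all cycles come from one cycle. -/

namespace Pool.Agent.H.MP_48f3d1_lc.Cyc

open Polynomial
open Pool.Agent.H.MP_48f3d1_lc.Lin (val val_append)

variable {ι σ : Type} [DecidableEq ι]

theorem sub_erase [Fintype ι] {a b : ι} (hab : a ≠ b) {x : ι → List σ} (h : x a = x b) :
    sub x (Finset.univ.erase a) = sub x Finset.univ := by
  apply le_antisymm
  · exact Subgroup.closure_mono (Set.image_mono (Finset.coe_subset.2 (Finset.erase_subset _ _)))
  · refine (Subgroup.closure_le _).2 ?_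
    rintro _ ⟨i, hi, rfl⟩
    rcases eq_or_ne i a with rfl | hia
    · simp only
      rw [h]
      exact mem_sub x (Finset.mem_erase.2 ⟨hab.symm, Finset.mem_univ _⟩)
    · exact mem_sub x (Finset.mem_erase.2 ⟨hia, Finset.mem_univ _⟩)

theorem equal_uni [Fintype ι] {a b : ι} (hab : a ≠ b) {x : ι → List σ} (hx : ∀ i, x i ≠ [])
    (h : x a = x b) (hr : ∀ T : Finset (FreeGroup σ),
      Subgroup.closure (T : Set (FreeGroup σ)) = sub x Finset.univ → Fintype.card ι - 1 ≤ T.card) :
    ∃ P p, Uni x P p := by
  set p : ι → ℤ[X] := Function.update (Function.update (fun _ => 0) b (-1)) a 1 with hp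
  have hpa : p a = 1 := by rw [hp, Function.update_self]
  have hpb : p b = -1 := by rw [hp, Function.update_of_ne hab.symm, Function.update_self]
  have hpi : ∀ i, i ≠ a → i ≠ b → p i = 0 := by
    intro i hia hib
    rw [hp, Function.update_of_ne hia, Function.update_of_ne hib]
  have h1 : (1 : ℤ[X]).coeff 0 ≠ 0 := by simp
  refine ⟨x a, p, ⟨?_, ?_⟩, ⟨a, ?_⟩, ⟨a, ?_⟩, ⟨a, le_rfl, ?_⟩, ?_⟩
  · intro i q hq
    have hq0 : (1 : ℤ[X]).coeff q ≠ 0 → q = 0 := by
      intro h3
      by_contra h4
      rw [coeff_one, if_neg h4] at h3
      exact h3 rfl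
    rcases eq_or_ne i a with rfl | hia
    · rw [hpa] at hq
      rw [hq0 hq]
      exact List.prefix_refl _
    rcases eq_or_ne i b with rfl | hib
    · rw [hpb, coeff_neg, neg_ne_zero] at hq
      rw [hq0 hq, h]
      exact List.prefix_refl _
    · rw [hpi i hia hib, coeff_zero] at hq
      exact absurd rfl hq
  · rw [Fintype.sum_eq_add a b hab]
    · rw [hpa, hpb, h]
      ring
    · rintro i ⟨hia, hib⟩
      rw [hpi i hia hib, zero_mul]
  · rw [hpa, eval_one]
    exact one_ne_zero
  · rw [hpa]
    exact h1
  · rw [hpa, Nat.sub_self]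
    exact h1
  · intro w c hc
    set c' : ι → ℤ[X] := Function.update (Function.update c b (c b + c a)) a 0 with hc'
    have hca : c' a = 0 := by rw [hc', Function.update_self]
    have hcb : c' b = c b + c a := by
      rw [hc', Function.update_of_ne hab.symm, Function.update_self]
    have hci : ∀ i, i ≠ a → i ≠ b → c' i = c i := by
      intro i hia hib
      rw [hc', Function.update_of_ne hia, Function.update_of_ne hib]
    have hcyc : IsCyc x w c' := by
      refine ⟨?_, ?_⟩
      · intro i q hq
        rcases eq_or_ne i a with rfl | hia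
        · rw [hca, coeff_zero] at hq
          exact absurd rfl hq
        rcases eq_or_ne i b with rfl | hib
        · rw [hcb, coeff_add] at hq
          rcases eq_or_ne ((c i).coeff q) 0 with h3 | h3
          · rw [h3, zero_add] at hq
            rw [← h]
            exact hc.1 a q hq
          · exact hc.1 i q h3
        · rw [hci i hia hib] at hq
          exact hc.1 i q hq
      · rw [← hc.2, ← sub_eq_zero, ← Finset.sum_sub_distrib, Fintype.sum_eq_add a b hab]
        · rw [hca, hcb, h]
          ring
        · rintro i ⟨hia, hib⟩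
          rw [hci i hia hib, sub_self]
    have h0 : ∀ i, c' i = 0 := by
      by_contra hcon
      push Not at hcon
      obtain ⟨T, hT, hT'⟩ := lemN _ (Finset.univ.erase a) x w c' le_rfl (fun i _ => hx i)
        (by
          intro i hi
          rw [Finset.mem_erase, not_and_or] at hi
          rcases hi with hi | hi
          · rw [not_not.1 hi]
            exact hca
          · exact absurd (Finset.mem_univ _) hi) hcyc hcon
      rw [sub_erase hab h] at hT
      have h3 := hr T hT
      rw [Finset.card_erase_of_mem (Finset.mem_univ _), Finset.card_univ] at hT'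
      omega
    refine ⟨c a, ?_, fun s hs => hc.1 a s hs⟩
    intro i
    rcases eq_or_ne i a with rfl | hia
    · rw [hpa, mul_one]
    rcases eq_or_ne i b with rfl | hib
    · have h3 := h0 i
      rw [hcb] at h3
      rw [hpb, mul_neg, mul_one]
      exact eq_neg_of_add_eq_zero_left h3
    · rw [hpi i hia hib, mul_zero, ← hci i hia hib]
      exact h0 i

/-- If `n` nonempty words generate a subgroup of rank at least `n - 1` and have a nonzero cycle,
then all their cycles are combinations of translates of one cycle. -/
theorem exists_uni [Fintype ι] : ∀ (n : ℕ) (x : ι → List σ) (w : List σ) (c : ι → ℤ[X]),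
    ∑ i, (x i).length ≤ n → (∀ i, x i ≠ []) →
    (∀ T : Finset (FreeGroup σ), Subgroup.closure (T : Set (FreeGroup σ)) = sub x Finset.univ →
      Fintype.card ι - 1 ≤ T.card) → IsCyc x w c → (∃ i, c i ≠ 0) → ∃ P p, Uni x P p := by
  intro n
  induction n with
  | zero =>
    intro x w c hn hx _ _ h0
    obtain ⟨i, hi⟩ := h0
    have h1 := List.length_pos_of_ne_nil (hx i)
    have h2 : (x i).length ≤ ∑ i, (x i).length :=
      Finset.single_le_sum (f := fun i => (x i).length) (fun _ _ => Nat.zero_le _)
        (Finset.mem_univ i)
    omega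
  | succ n ih =>
    intro x w c hn hx hr hc h0
    obtain ⟨a, b, t, hab, ha, hb, ht⟩ := exists_pair hc (fun i _ => hx i) h0
    rcases eq_or_ne t [] with ht0 | ht0
    · rw [ht0, List.append_nil] at ht
      exact equal_uni hab hx ht hr
    · have h1 := sum_update_lt hab (Finset.mem_univ a) (hx b) ht
      obtain ⟨P, p, hU⟩ := ih (Function.update x a t) w (peel a b (x b).length c) (by omega)
        (by
          intro i
          rcases eq_or_ne i a with rfl | hia
          · rwa [Function.update_self]
          · rw [Function.update_of_ne hia]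
            exact hx i)
        (by
          intro T hT
          rw [sub_update hab (Finset.mem_univ _) (Finset.mem_univ _) ht] at hT
          exact hr T hT)
        (peel_cyc hab ht hc) (peel_ne_zero hab _ h0)
      exact lift_uni hab hx ht ht0 hU hc h0

end Pool.Agent.H.MP_48f3d1_lc.Cyc
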