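import Pool.Agent.H.MP_48f3d1_lc.Cyc.Gap

/-! A relation between words with a universal cycle gives an unbalanced relation. -/

namespace Pool.Agent.H.MP_48f3d1_lc.Cyc

open Polynomial
open Pool.Agent.H.MP_48f3d1_lc.Lin (flat flat_nil flat_cons flat_append flat_single)

variable {ι σ : Type} [DecidableEq ι]

/-- all translates lie at multiples of the smallest period, and the word has this period -/
theorem periodic [Fintype ι] {x : ι → List σ} {P : List σ} {p : ι → ℤ[X]} {u v : List ι}
    {D : ℤ[X]} {π M : ℕ} (hS : Short x P p u v D π M) {z : List σ} {N : ℕ} (hz : Prim z)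
    (hzl : z.length = π) (hzP : z <+: P) (hPz : P <+: pw z N) (h0 : D.coeff 0 ≠ 0) :
    ∀ s, D.coeff s ≠ 0 → π ∣ s ∧ ∃ N', (flat x u).take (s + P.length) <+: pw z N' := by
  classical
  have hπL : π ≤ P.length := by
    rw [← hzl]
    exact hzP.length_le
  intro s
  induction s using Nat.strong_induction_on with
  | _ s ih =>
    intro hs
    rcases Nat.eq_zero_or_pos s with hs0 | hs0
    · refine ⟨by rw [hs0]; exact dvd_zero _, N, ?_⟩
      have h1 := take_occ (hS.occ s hs) le_rfl
      rw [hs0, List.take_zero, List.nil_append, List.take_length] at h1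
      rw [hs0, h1]
      exact hPz
    · -- the preceding translate
      have hne : (D.support.filter fun k => k < s).Nonempty :=
        ⟨0, Finset.mem_filter.2 ⟨mem_support_iff.2 h0, hs0⟩⟩
      have hkm := Finset.max'_mem _ hne
      have hkmax : ∀ k, D.coeff k ≠ 0 → k < s → k ≤ (D.support.filter fun k => k < s).max' hne :=
        fun k h1 h2 => Finset.le_max' _ k (Finset.mem_filter.2 ⟨mem_support_iff.2 h1, h2⟩)
      set k := (D.support.filter fun k => k < s).max' hne with hk
      rw [Finset.mem_filter, mem_support_iff] at hkm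
      obtain ⟨hk1, hk2⟩ := hkm
      have hgap := gap_lt hS hk1 hs hk2 (by
        intro j h1 h2
        by_contra h3
        have := hkmax j h3 h2
        omega)
      obtain ⟨⟨j, hj⟩, N', hN'⟩ := ih k hk2 hk1
      have hok := hS.occ k hk1
      have hos := hS.occ s hs
      have h1 : P.drop (s - k) <+: (flat x u).drop s := by
        have := drop_occ hok (s - k)
        rwa [Nat.add_sub_cancel' hk2.le] at this
      have h2 : z <+: P.drop (s - k) := by
        refine prefix_of (hzP.trans hos) h1 ?_
        rw [List.length_drop, hzl]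
        omega
      have h3 : π ∣ s - k := by
        rw [← hzl]
        exact prim_occ hz (h2.trans (hPz.drop _))
      have h4 : π ∣ s := by
        have h5 := Nat.dvd_add h3 (Dvd.intro j hj.symm)
        rwa [Nat.sub_add_cancel hk2.le] at h5
      refine ⟨h4, ?_⟩
      obtain ⟨i, hi⟩ := h4
      have h5 : (flat x u).take s <+: pw z N' := by
        refine List.IsPrefix.trans ?_ hN'
        have h6 : (flat x u).take s = ((flat x u).take (k + P.length)).take s := by
          rw [List.take_take, min_eq_left (by omega)]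
        rw [h6]
        exact List.take_prefix _ _
      have h6 := occ_le hos hS.pne
      have h7 : (flat x u).take s = pw z i := by
        refine eq_pw h5 ?_ hz.1
        rw [List.length_take, min_eq_left (by omega), hzl, hi, Nat.mul_comm]
      refine ⟨i + N, ?_⟩
      rw [take_occ hos le_rfl, List.take_length, h7, pw_add]
      exact (List.prefix_append_right_inj _).2 hPz

theorem unbalanced_of_uni [Fintype ι] (x : ι → List σ) (hx : ∀ i, x i ≠ []) {P : List σ}
    {p : ι → ℤ[X]} (hU : Uni x P p) {u0 v0 : List ι} (huv0 : u0 ≠ v0)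
    (h0 : flat x u0 = flat x v0) :
    ∃ u v : List ι, flat x u = flat x v ∧ ∃ i, u.count i ≠ v.count i := by
  classical
  by_contra hcon
  push Not at hcon
  have hxl : ∀ i, 0 < (x i).length := fun i => List.length_pos_of_ne_nil (hx i)
  -- every cycle from a relation is balanced
  have hbal : ∀ u v, flat x u = flat x v → ∃ D : ℤ[X],
      (∀ i, chain x u i - chain x v i = D * p i) ∧ (∀ s, D.coeff s ≠ 0 → Occ P (flat x u) s) ∧
      D.eval 1 = 0 := by
    intro u v h
    obtain ⟨D, h1, h2⟩ := hU.uni _ _ (chain_cyc h)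
    refine ⟨D, h1, h2, ?_⟩
    obtain ⟨i, hi⟩ := hU.kap
    have h3 := congrArg (fun r : ℤ[X] => r.eval 1) (h1 i)
    simp only [eval_sub, eval_mul, chain_eval] at h3
    rw [hcon u v h i, sub_self] at h3
    rcases mul_eq_zero.1 h3.symm with h4 | h4
    · exact h4
    · exact absurd h4 hi
  -- a shortest relation
  have hex : ∃ n, ∃ u v : List ι, u ≠ v ∧ flat x u = flat x v ∧ (flat x u).length = n :=
    ⟨_, u0, v0, huv0, h0, rfl⟩
  obtain ⟨u, v, huv, hrel, hlen⟩ := Nat.find_spec hex
  have hmin : ∀ u' v', flat x u' = flat x v' → (flat x u').length < (flat x u).length →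
      u' = v' := by
    intro u' v' h1 h2
    by_contra h3
    rw [hlen] at h2
    exact Nat.find_min hex h2 ⟨u', v', h3, h1, rfl⟩
  have hnil : ∀ y : List ι, flat x y = [] → y = [] := by
    intro y hy
    rcases y with _ | ⟨i, y⟩
    · rfl
    · rw [flat_cons] at hy
      exact absurd (List.append_eq_nil_iff.1 hy).1 (hx i)
  obtain ⟨a, u', hu⟩ : ∃ a u', u = a :: u' := by
    rcases hu : u with _ | ⟨a, u'⟩
    · exfalso
      apply huv
      rw [hu, flat_nil] at hrel
      rw [hu, hnil v hrel.symm]
    · exact ⟨a, u', rfl⟩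
  obtain ⟨b, v', hv⟩ : ∃ b v', v = b :: v' := by
    rcases hv : v with _ | ⟨b, v'⟩
    · exfalso
      apply huv
      rw [hv, flat_nil] at hrel
      rw [hv, hnil u hrel]
    · exact ⟨b, v', rfl⟩
  have hab : a ≠ b := by
    intro h
    apply huv
    rw [hu, hv, h, flat_cons, flat_cons] at hrel
    have h1 := List.append_cancel_left hrel
    have h2 := hmin u' v' h1 (by
      rw [hu, flat_cons, List.length_append]
      have := hxl a
      omega)
    rw [hu, hv, h, h2]
  have hcut : ∀ u1 u2 v1 v2, u = u1 ++ u2 → v = v1 ++ v2 →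
      (flat x u1).length = (flat x v1).length →
      (flat x u1).length = 0 ∨ (flat x u1).length = (flat x u).length := by
    intro u1 u2 v1 v2 h1 h2 h3
    by_contra h4
    push Not at h4
    obtain ⟨h5, h6⟩ := h4
    have h7 := flat_take x h1
    have h8 := flat_take x h2
    rw [← hrel, ← h3] at h8
    have h9 : (flat x u1).length + (flat x u2).length = (flat x u).length := by
      rw [h1, flat_append, List.length_append]
    have h10 := hmin u1 v1 (by rw [h7.1, h8.1]) (by omega)
    have h11 := hmin u2 v2 (by rw [h7.2, h8.2]) (by omega)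
    exact huv (by rw [h1, h2, h10, h11])
  obtain ⟨D, hD1, hD2, hD3⟩ := hbal u v hrel
  -- no common edges
  have hcommon : ∀ i q, (chain x u i).coeff q ≠ 0 → (chain x v i).coeff q = 0 := by
    intro i q h1
    by_contra h2
    obtain ⟨u1, u2, h3, h4⟩ := chain_mem x u i q h1
    obtain ⟨v1, v2, h5, h6⟩ := chain_mem x v i q h2
    rcases hcut u1 _ v1 _ h3 h5 (by rw [h4, h6]) with h7 | h7
    · have h8 := hnil u1 (List.length_eq_zero_iff.1 h7)
      have h9 := hnil v1 (List.length_eq_zero_iff.1 (by omega))
      rw [h8, List.nil_append, hu] at h3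
      rw [h9, List.nil_append, hv] at h5
      exact hab ((List.cons.inj h3).1.trans (List.cons.inj h5).1.symm)
    · rw [h3, flat_append, List.length_append, flat_cons, List.length_append] at h7
      have := hxl i
      omega
  have hedgeu : ∀ i q, (chain x u i).coeff q ≠ 0 → (chain x u i - chain x v i).coeff q ≠ 0 := by
    intro i q h1
    rw [coeff_sub, hcommon i q h1, sub_zero]
    exact h1
  have hedgev : ∀ i q, (chain x v i).coeff q ≠ 0 → (chain x u i - chain x v i).coeff q ≠ 0 := by
    intro i q h1
    have h2 : (chain x u i).coeff q = 0 := by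
      by_contra h3
      exact h1 (hcommon i q h3)
    rw [coeff_sub, h2, zero_sub, neg_ne_zero]
    exact h1
  have hua : (chain x u a).coeff 0 ≠ 0 := by
    rw [hu, chain_zero x hx, if_pos rfl]
    exact one_ne_zero
  obtain ⟨k0, j0, hk0, hk1, hk2⟩ := exists_terms (hD1 a ▸ hedgeu a 0 hua)
  have hD0 : D.coeff 0 ≠ 0 := by
    have h1 : k0 = 0 := by omega
    rwa [h1] at hk1
  have hPne : P ≠ [] := by
    intro h1
    have h2 := (hU.cyc.1 a j0 hk2).length_le
    rw [h1, List.length_drop, List.length_nil] at h2
    have := hxl a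
    omega
  have hDne : D ≠ 0 := by
    rintro rfl
    exact hD0 (coeff_zero 0)
  set M := D.natDegree with hM
  have hMne : D.coeff M ≠ 0 := leadingCoeff_ne_zero.2 hDne
  have hMmax : ∀ s, D.coeff s ≠ 0 → s ≤ M := fun s hs => le_natDegree_of_ne_zero hs
  have hMlen : M + P.length = (flat x u).length := by
    refine le_antisymm (occ_le (hD2 M hMne) hPne) ?_
    have h1 := end_le (ul := u) (ur := []) (E := D) (T := (flat x u).length) (s := M) hx hU.cyc
      (by rw [hu]; exact List.cons_ne_nil _ _) (fun i q h => chain_lt x hx u i q h)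
      (by
        intro i q h1 _
        rw [List.append_nil] at h1
        rw [← hD1]
        exact hedgeu i q h1) hMmax
    exact h1
  -- the smallest period
  obtain ⟨z, N, hz, hzP, hPz, hper⟩ := exists_base hPne
  have hS : Short x P p u v D z.length M :=
    { ne := hx
      cyc := hU.cyc
      pne := hPne
      rel := hrel
      eq := hD1
      occ := hD2
      len := hMlen
      top := hMne
      max := hMmax
      gap := by
        intro s s' h1 h2 h3
        have h4 : P.drop (s' - s) <+: P := by
          have h5 := drop_occ (hD2 s h1) (s' - s)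
          rw [Nat.add_sub_cancel' h3.le] at h5
          refine prefix_of h5 (hD2 s' h2) ?_
          rw [List.length_drop]
          omega
        have := hper (s' - s) (by omega) h4
        omega
      cut := hcut
      min := hmin
      edgeu := hedgeu
      edgev := hedgev
      head := ⟨a, b, u', v', hu, hv, hab⟩ }
  have hper' := periodic hS hz rfl hzP hPz hD0
  obtain ⟨-, N', hN'⟩ := hper' M hMne
  rw [hMlen, List.take_length] at hN'
  -- equally many letters at the multiples of the period
  have hres : ∀ i, res z.length (chain x u i) = res z.length (chain x v i) := by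
    intro i
    rw [← sub_eq_zero, ← map_sub, hD1, res_mul (fun s hs => (hper' s hs).1), hD3, zero_mul]
  have hcutz : ∀ (y y' : List ι) (c d : ι) (y0 y0' : List ι), y = c :: y0 → y' = d :: y0' →
      c ≠ d → flat x y <+: pw z N' → res z.length (chain x y d) = res z.length (chain x y' d) →
      ∃ y1 k, y1 ≠ [] ∧ flat x y1 = pw z k ∧ 0 < k ∧
        (∀ i q, (chain x y1 i).coeff q ≠ 0 → z.length ∣ q → q = 0) ∧
        (chain x y1 c).coeff 0 = 1 ∧ (chain x y1 d).coeff 0 = 0 := by
    intro y y' c d y0 y0' hy hy' hcd hyN hr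
    have h1 : (1 : ℤ) ≤ res z.length (chain x y' d) := by
      have h2 := le_res (π := z.length) (chain_nonneg x y' d)
      rwa [hy', chain_zero x hx, if_pos rfl, ← hy'] at h2
    obtain ⟨q, h2, h3⟩ := exists_of_res (π := z.length) (p := chain x y d) (by omega)
    obtain ⟨w1, w2, h4, h5⟩ := chain_mem x y d q h3
    have hw1 : w1 ≠ [] := by
      rintro rfl
      rw [List.nil_append, hy] at h4
      exact hcd (List.cons.inj h4).1
    obtain ⟨v1, v2, h6, h7, h8, h9⟩ := first_cut (π := z.length) x w1 (d :: w2) hw1
      (by rw [h5]; exact h2)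
    obtain ⟨k, hk⟩ := h8
    have h10 : y = v1 ++ v2 := by rw [h4, h6]
    have h11 : flat x v1 = pw z k := by
      refine eq_pw (N := N') ?_ ?_ hz.1
      · rw [h10, flat_append] at hyN
        exact (List.prefix_append _ _).trans hyN
      · rw [hk, Nat.mul_comm]
    obtain ⟨c', v1', h12⟩ : ∃ c' v1', v1 = c' :: v1' := by
      rcases v1 with _ | ⟨c', v1'⟩
      · exact absurd rfl h7
      · exact ⟨c', v1', rfl⟩
    have h13 : c' = c := by
      rw [h12, hy, List.cons_append] at h10
      exact (List.cons.inj h10).1.symm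
    refine ⟨v1, k, h7, h11, ?_, h9, ?_, ?_⟩
    · rcases Nat.eq_zero_or_pos k with h14 | h14
      · exfalso
        rw [h14, pw_zero] at h11
        exact h7 (hnil v1 h11)
      · exact h14
    · rw [h12, chain_zero x hx, if_pos h13.symm]
    · rw [h12, chain_zero x hx, if_neg (by rw [h13]; exact hcd.symm)]
  obtain ⟨u1, ku, hu1, hu2, hu3, hu4, hu5, hu6⟩ :=
    hcutz u v a b u' v' hu hv hab hN' (hres b)
  obtain ⟨v1, kv, hv1, hv2, hv3, hv4, hv5, hv6⟩ :=
    hcutz v u b a v' u' hv hu hab.symm (hrel ▸ hN') (hres a).symm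
  -- the relation between their powers
  have hlu : z.length ∣ (flat x u1).length := by
    rw [hu2, length_pw]
    exact Nat.dvd_mul_left _ _
  have hlv : z.length ∣ (flat x v1).length := by
    rw [hv2, length_pw]
    exact Nat.dvd_mul_left _ _
  have hrel2 : flat x (pw u1 kv) = flat x (pw v1 ku) := by
    rw [flat_pw, flat_pw, hu2, hv2, ← pw_mul, ← pw_mul, Nat.mul_comm]
  obtain ⟨D', hE1, hE2, hE3⟩ := hbal _ _ hrel2
  have hE4 : ∀ s, D'.coeff s ≠ 0 → z.length ∣ s := by
    intro s hs
    have h1 := hE2 s hs
    rw [flat_pw, hu2, ← pw_mul] at h1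
    exact prim_occ hz (hzP.trans h1)
  have h1 := congrArg (res z.length) (hE1 a)
  rw [map_sub, res_chain_pw x u1 hlu, res_chain_pw x v1 hlv, res_mul hE4, hE3, zero_mul,
    res_of (hu4 a), res_of (hv4 a), hu5, hv6, mul_one, mul_zero, sub_zero] at h1
  have h2 : kv = 0 := by exact_mod_cast h1
  omega

end Pool.Agent.H.MP_48f3d1_lc.Cyc
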