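import Pool.Agent.H.MP_48f3d1_lc.Cyc.Chain

/-! Shortest relations: consecutive translates overlap in more than a period. -/

namespace Pool.Agent.H.MP_48f3d1_lc.Cyc

open Polynomial
open Pool.Agent.H.MP_48f3d1_lc.Lin (flat flat_nil flat_cons flat_append flat_single)

variable {ι σ : Type} [DecidableEq ι]

/-- the smallest period of a word -/
theorem exists_base {P : List σ} (hP : P ≠ []) : ∃ z N, Prim z ∧ z <+: P ∧ P <+: pw z N ∧
    ∀ d, 1 ≤ d → P.drop d <+: P → z.length ≤ d := by
  classical
  have hL := List.length_pos_of_ne_nil hP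
  have hex : ∃ d, 1 ≤ d ∧ P.drop d <+: P := ⟨P.length, hL, by
    rw [List.drop_length]
    exact List.nil_prefix⟩
  obtain ⟨h1, h2⟩ := Nat.find_spec hex
  have hmin : ∀ d, 1 ≤ d → P.drop d <+: P → Nat.find hex ≤ d := fun d h3 h4 =>
    Nat.find_min' hex ⟨h3, h4⟩
  set d := Nat.find hex with hd
  have hdL : d ≤ P.length := hmin _ hL (by
    rw [List.drop_length]
    exact List.nil_prefix)
  have hzl : (P.take d).length = d := by rw [List.length_take, min_eq_left hdL]
  have hz0 : P.take d ≠ [] := by
    intro h3
    rw [h3, List.length_nil] at hzl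
    omega
  have hPz : P <+: P.take d ++ P := by
    conv_lhs => rw [← List.take_append_drop d P]
    exact (List.prefix_append_right_inj _).2 h2
  obtain ⟨N, hN⟩ := per hz0 hPz
  refine ⟨P.take d, N, ⟨hz0, ?_⟩, List.take_prefix _ _, hN, ?_⟩
  · intro r hr hr0 hc
    have h3 := pw_comm hc N
    have h4 : P.drop r.length <+: pw (P.take d) N := by
      have h5 : P <+: r ++ pw (P.take d) N := by
        rw [← h3]
        exact hN.trans (List.prefix_append _ _)
      have h6 := h5.drop r.length
      rwa [List.drop_left] at h6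
    have h5 : P.drop r.length <+: P := prefix_of h4 hN (by
      rw [List.length_drop]
      omega)
    have h6 := hmin _ (List.length_pos_of_ne_nil hr0) h5
    exact hr.eq_of_length (le_antisymm hr.length_le (by rw [hzl]; exact h6))
  · intro e h3 h4
    rw [hzl]
    exact hmin e h3 h4

/-- A shortest relation `u = v` between the words `x i`, and the translates of the cycle `p` in
`P` which give it. -/
structure Short [Fintype ι] (x : ι → List σ) (P : List σ) (p : ι → ℤ[X]) (u v : List ι)
    (D : ℤ[X]) (π M : ℕ) : Prop where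
  ne : ∀ i, x i ≠ []
  cyc : IsCyc x P p
  pne : P ≠ []
  rel : flat x u = flat x v
  eq : ∀ i, chain x u i - chain x v i = D * p i
  occ : ∀ s, D.coeff s ≠ 0 → Occ P (flat x u) s
  len : M + P.length = (flat x u).length
  top : D.coeff M ≠ 0
  max : ∀ s, D.coeff s ≠ 0 → s ≤ M
  gap : ∀ s s', D.coeff s ≠ 0 → D.coeff s' ≠ 0 → s < s' → s + π ≤ s'
  cut : ∀ u1 u2 v1 v2, u = u1 ++ u2 → v = v1 ++ v2 → (flat x u1).length = (flat x v1).length →
    (flat x u1).length = 0 ∨ (flat x u1).length = (flat x u).length
  min : ∀ u' v', flat x u' = flat x v' → (flat x u').length < (flat x u).length → u' = v'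
  edgeu : ∀ i q, (chain x u i).coeff q ≠ 0 → (chain x u i - chain x v i).coeff q ≠ 0
  edgev : ∀ i q, (chain x v i).coeff q ≠ 0 → (chain x u i - chain x v i).coeff q ≠ 0
  head : ∃ a b u0 v0, u = a :: u0 ∧ v = b :: v0 ∧ a ≠ b

theorem exists_terms {D p : ℤ[X]} {q : ℕ} (h : (D * p).coeff q ≠ 0) :
    ∃ k j, k + j = q ∧ D.coeff k ≠ 0 ∧ p.coeff j ≠ 0 := by
  rw [coeff_mul] at h
  obtain ⟨⟨k, j⟩, h1, h2⟩ := Finset.exists_ne_zero_of_sum_ne_zero h
  exact ⟨k, j, Finset.HasAntidiagonal.mem_antidiagonal.1 h1, left_ne_zero_of_mul h2,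
    right_ne_zero_of_mul h2⟩

/-- the end of a prefix of `u` all of whose letters start before `T` -/
theorem end_le [Fintype ι] {x : ι → List σ} {P : List σ} {p : ι → ℤ[X]} (hx : ∀ i, x i ≠ [])
    (hp : IsCyc x P p) {ul ur : List ι} {E : ℤ[X]} {T s : ℕ}
    (h0 : ul ≠ []) (h1 : ∀ i q, (chain x ul i).coeff q ≠ 0 → q < T)
    (h2 : ∀ i q, (chain x (ul ++ ur) i).coeff q ≠ 0 → q < T → (E * p i).coeff q ≠ 0)
    (h3 : ∀ k, E.coeff k ≠ 0 → k ≤ s) : (flat x ul).length ≤ s + P.length := by
  rcases List.eq_nil_or_concat ul with h4 | ⟨ul', i, h4⟩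
  · exact absurd h4 h0
  · rw [List.concat_eq_append] at h4
    have h5 := coeff_of_mem x ul' [] i
    rw [← h4] at h5
    have h6 := coeff_of_mem x ul' ur i
    have h7 : ul' ++ i :: ur = ul ++ ur := by rw [h4]; simp
    rw [h7] at h6
    obtain ⟨k, j, h8, h9, h10⟩ := exists_terms (h2 i (flat x ul').length (by omega)
      (h1 i (flat x ul').length (by omega)))
    have h11 := occ_le (hp.1 i j h10) (hx i)
    have h12 := h3 k h9
    rw [h4, flat_append, List.length_append, flat_single]
    omega

theorem splice {P w : List σ} {s M : ℕ} (h1 : Occ P w s) (h2 : Occ P w M)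
    (h3 : M + P.length = w.length) {e : ℕ} (h4 : s ≤ e) (h5 : e ≤ s + P.length) (hM : s ≤ M) :
    w.take e ++ w.drop (e + (M - s)) = w.take (s + P.length) := by
  have h6 : w.drop M = P := by
    refine (List.IsPrefix.eq_of_length h2 ?_).symm
    rw [List.length_drop]
    omega
  have h7 : w.take e = w.take s ++ P.take (e - s) := by
    have := take_occ h1 (q := e - s) (by omega)
    rwa [Nat.add_sub_cancel' h4] at this
  have h8 : w.drop (e + (M - s)) = P.drop (e - s) := by
    rw [← h6, List.drop_drop]
    congr 1
    omega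
  rw [h7, h8, List.append_assoc, List.take_append_drop, take_occ h1 le_rfl, List.take_length]

omit [DecidableEq ι] in
theorem flat_take (x : ι → List σ) {u u1 u2 : List ι} (h : u = u1 ++ u2) :
    flat x u1 = (flat x u).take (flat x u1).length ∧
      flat x u2 = (flat x u).drop (flat x u1).length := by
  rw [h, flat_append, List.take_left, List.drop_left]
  exact ⟨rfl, rfl⟩

theorem gap_lt [Fintype ι] {x : ι → List σ} {P : List σ} {p : ι → ℤ[X]} {u v : List ι}
    {D : ℤ[X]} {π M : ℕ} (hS : Short x P p u v D π M) {s t : ℕ} (hs : D.coeff s ≠ 0)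
    (ht : D.coeff t ≠ 0) (hst : s < t) (hcons : ∀ k, s < k → k < t → D.coeff k = 0) :
    t + π < s + P.length := by
  by_contra hcon
  push Not at hcon
  have hL := List.length_pos_of_ne_nil hS.pne
  have hpL' : ∀ i j, P.length ≤ j → (p i).coeff j = 0 := by
    intro i j hj
    by_contra h
    have h1 := occ_le (hS.cyc.1 i j h) (hS.ne i)
    have h2 := List.length_pos_of_ne_nil (hS.ne i)
    omega
  have hsM := hS.max s hs
  have htM := hS.max t ht
  have hm := hS.len
  set δ := M - s with hδ
  set D1 : ℤ[X] := ∑ k ∈ Finset.range (s + 1), monomial k (D.coeff k) with hD1'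
  have hD1 : ∀ k, D1.coeff k = if k ≤ s then D.coeff k else 0 := by
    intro k
    rw [hD1', finsetSum_coeff]
    simp only [coeff_monomial]
    rw [Finset.sum_ite_eq' (Finset.range (s + 1)) k]
    simp only [Finset.mem_range, Nat.lt_succ_iff]
  have e1 : ∀ i q, q < t → (D1 * p i).coeff q = (D * p i).coeff q := by
    intro i q hq
    rw [coeff_mul, coeff_mul]
    refine Finset.sum_congr rfl ?_
    rintro ⟨k, j⟩ hkj
    rw [Finset.HasAntidiagonal.mem_antidiagonal] at hkj
    simp only at hkj ⊢
    rw [hD1]
    split_ifs with h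
    · rfl
    · rw [hcons k (by omega) (by omega)]
  have e2 : ∀ i q, t ≤ q → (D1 * p i).coeff q = D.coeff s * (p i).coeff (q - s) := by
    intro i q hq
    rw [coeff_mul, Finset.sum_eq_single (s, q - s)]
    · simp only
      rw [hD1, if_pos le_rfl]
    · rintro ⟨k, j⟩ hkj hne
      rw [Finset.HasAntidiagonal.mem_antidiagonal] at hkj
      simp only at hkj ⊢
      rw [hD1]
      split_ifs with h
      · by_cases hk : D.coeff k = 0
        · rw [hk, zero_mul]
        · have hks : k < s := by
            rcases h.lt_or_eq with h3 | h3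
            · exact h3
            · exfalso
              apply hne
              rw [Prod.mk.injEq]
              omega
          have := hS.gap k s hk hs hks
          rw [hpL' i j (by omega), mul_zero]
      · rw [zero_mul]
    · intro h
      exact absurd (Finset.HasAntidiagonal.mem_antidiagonal.2 (by simp only; omega)) h
  have e3 : ∀ i q, t ≤ q → (D * p i).coeff (q + δ) = D.coeff M * (p i).coeff (q - s) := by
    intro i q hq
    rw [coeff_mul, Finset.sum_eq_single (M, q - s)]
    · rintro ⟨k, j⟩ hkj hne
      rw [Finset.HasAntidiagonal.mem_antidiagonal] at hkj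
      simp only at hkj ⊢
      by_cases hk : D.coeff k = 0
      · rw [hk, zero_mul]
      · have hkM : k < M := by
          rcases (hS.max k hk).lt_or_eq with h3 | h3
          · exact h3
          · exfalso
            apply hne
            rw [Prod.mk.injEq]
            omega
        have := hS.gap k M hk hS.top hkM
        rw [hpL' i j (by omega), mul_zero]
    · intro h
      exact absurd (Finset.HasAntidiagonal.mem_antidiagonal.2 (by simp only; omega)) h
  have hrel := hS.rel
  obtain ⟨ul, ur, hu1, hu2, hu3⟩ := split_at x u t (by omega)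
  obtain ⟨vl, vr, hv1, hv2, hv3⟩ := split_at x v t (by rw [← hrel]; omega)
  have hul0 : ul ≠ [] := by
    rintro rfl
    rw [flat_nil, List.length_nil] at hu3
    omega
  have hvl0 : vl ≠ [] := by
    rintro rfl
    rw [flat_nil, List.length_nil] at hv3
    omega
  have heu : (flat x ul).length ≤ s + P.length := by
    refine end_le hS.ne hS.cyc (ur := ur) (E := D1) (T := t) hul0 hu2 ?_ ?_
    · intro i q h1 h2
      rw [← hu1] at h1
      rw [e1 i q h2, ← hS.eq]
      exact hS.edgeu i q h1
    · intro k hk
      rw [hD1] at hk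
      split_ifs at hk with h
      · exact h
      · exact absurd rfl hk
  have hev : (flat x vl).length ≤ s + P.length := by
    refine end_le hS.ne hS.cyc (ur := vr) (E := D1) (T := t) hvl0 hv2 ?_ ?_
    · intro i q h1 h2
      rw [← hv1] at h1
      rw [e1 i q h2, ← hS.eq]
      exact hS.edgev i q h1
    · intro k hk
      rw [hD1] at hk
      split_ifs at hk with h
      · exact h
      · exact absurd rfl hk
  obtain ⟨uh, ut, hu4, hu5, hu6⟩ := split_at x u (t + δ) (by omega)
  obtain ⟨vh, vt, hv4, hv5, hv6⟩ := split_at x v (t + δ) (by rw [← hrel]; omega)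
  have hlu : (flat x uh).length + (flat x ut).length = (flat x u).length := by
    rw [hu4, flat_append, List.length_append]
  have hlv : (flat x vh).length + (flat x vt).length = (flat x u).length := by
    rw [hrel, hv4, flat_append, List.length_append]
  set eu := (flat x ul).length with heu'
  set ev := (flat x vl).length with hev'
  set fu := (flat x uh).length with hfu'
  set fv := (flat x vh).length with hfv'
  -- the coefficients of one side
  have low : ∀ (y yl yr : List ι), y = yl ++ yr → t ≤ (flat x yl).length → ∀ i q, q < t →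
      (chain x y i).coeff q = (chain x yl i).coeff q := by
    intro y yl yr h1 h2 i q hq
    rw [h1, chain_append, coeff_add, coeff_X_pow_mul', if_neg (by omega), add_zero]
  have high : ∀ (y yh yt : List ι), y = yh ++ yt →
      (∀ i q, (chain x yh i).coeff q ≠ 0 → q < t + δ) → t + δ ≤ (flat x yh).length →
      ∀ i q, t ≤ q → (X ^ ((flat x yh).length - δ) * chain x yt i).coeff q =
        (chain x y i).coeff (q + δ) := by
    intro y yh yt h1 h2 h3 i q hq
    have h4 : (chain x yh i).coeff (q + δ) = 0 := by
      by_contra h5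
      have := h2 i _ h5
      omega
    rw [h1, chain_append, coeff_add, h4, zero_add, coeff_X_pow_mul', coeff_X_pow_mul']
    by_cases h5 : (flat x yh).length ≤ q + δ
    · rw [if_pos h5, if_pos (by omega)]
      congr 1
      omega
    · rw [if_neg h5, if_neg (by omega)]
  have hid : ∀ i, C (D.coeff M) * (D1 * p i) = C (D.coeff M) * (chain x ul i - chain x vl i) +
      C (D.coeff s) * (X ^ (fu - δ) * chain x ut i - X ^ (fv - δ) * chain x vt i) := by
    intro i
    ext q
    rw [coeff_C_mul, coeff_add, coeff_C_mul, coeff_C_mul, coeff_sub, coeff_sub]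
    rcases Nat.lt_or_ge q t with hq | hq
    · rw [e1 i q hq, ← hS.eq, coeff_sub, low u ul ur hu1 hu3 i q hq, low v vl vr hv1 hv3 i q hq,
        coeff_X_pow_mul', coeff_X_pow_mul', if_neg (by omega), if_neg (by omega)]
      ring
    · have h1 : (chain x ul i).coeff q = 0 := by
        by_contra h5
        have := hu2 i _ h5
        omega
      have h2 : (chain x vl i).coeff q = 0 := by
        by_contra h5
        have := hv2 i _ h5
        omega
      rw [e2 i q hq, h1, h2, high u uh ut hu4 hu5 hu6 i q hq, high v vh vt hv4 hv5 hv6 i q hq,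
        ← coeff_sub, hS.eq, e3 i q hq]
      ring
  -- the boundary
  have hB : C (D.coeff M) * (X ^ ev - X ^ eu) + C (D.coeff s) * (X ^ (fu - δ) - X ^ (fv - δ)) =
      (0 : ℤ[X]) := by
    have h1 : ∑ i, C (D.coeff M) * (D1 * p i) * (1 - X ^ (x i).length) = 0 := by
      have h2 : ∀ i, C (D.coeff M) * (D1 * p i) * (1 - X ^ (x i).length) =
          C (D.coeff M) * D1 * (p i * (1 - X ^ (x i).length)) := fun i => by ring
      rw [Finset.sum_congr rfl fun i _ => h2 i, ← Finset.mul_sum, hS.cyc.2, mul_zero]
    have h2 : ∀ i, C (D.coeff M) * (D1 * p i) * (1 - X ^ (x i).length) =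
        C (D.coeff M) * (chain x ul i * (1 - X ^ (x i).length)) -
        C (D.coeff M) * (chain x vl i * (1 - X ^ (x i).length)) +
        C (D.coeff s) * X ^ (fu - δ) * (chain x ut i * (1 - X ^ (x i).length)) -
        C (D.coeff s) * X ^ (fv - δ) * (chain x vt i * (1 - X ^ (x i).length)) := by
      intro i
      rw [hid i]
      ring
    rw [Finset.sum_congr rfl fun i _ => h2 i, Finset.sum_sub_distrib, Finset.sum_add_distrib,
      Finset.sum_sub_distrib, ← Finset.mul_sum, ← Finset.mul_sum, ← Finset.mul_sum,
      ← Finset.mul_sum, chain_sum, chain_sum, chain_sum, chain_sum] at h1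
    have h3 : (X ^ (fu - δ) * X ^ (flat x ut).length : ℤ[X]) =
        X ^ (fv - δ) * X ^ (flat x vt).length := by
      rw [← pow_add, ← pow_add]
      congr 1
      omega
    linear_combination h1 + C (D.coeff s) * h3
  have hne : eu ≠ ev := by
    intro h
    rcases hS.cut ul ur vl vr hu1 hv1 h with h1 | h1
    · omega
    · omega
  have hcu := congrArg (fun r : ℤ[X] => r.coeff eu) hB
  have hcv := congrArg (fun r : ℤ[X] => r.coeff ev) hB
  simp only [coeff_add, coeff_C_mul, coeff_sub, coeff_X_pow, coeff_zero] at hcu hcv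
  rw [if_neg hne, if_pos trivial] at hcu
  rw [if_pos trivial, if_neg hne.symm] at hcv
  have hMne := hS.top
  -- the two shorter relations
  have hval : ∀ (y yl yr yh yt y' : List ι), flat x y = flat x u → y = yl ++ yr → 
      flat x y' = flat x u → y' = yh ++ yt → t ≤ (flat x yl).length →
      (flat x yl).length ≤ s + P.length → (flat x yh).length = (flat x yl).length + δ →
      flat x (yl ++ yt) = (flat x u).take (s + P.length) := by
    intro y yl yr yh yt y' h1 h2 h3 h4 h5 h6 h7
    rw [flat_append, (flat_take x h2).1, (flat_take x h4).2, h1, h3, h7]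
    exact splice (hS.occ s hs) (hS.occ M hS.top) hm (by omega) h6 hsM
  have hshort : ∀ y1 y2, flat x (ul ++ y1) = (flat x u).take (s + P.length) →
      flat x (vl ++ y2) = (flat x u).take (s + P.length) → False := by
    intro y1 y2 h1 h2
    have h3 := hS.min (ul ++ y1) (vl ++ y2) (by rw [h1, h2]) (by
      rw [h1, List.length_take]
      omega)
    obtain ⟨a, b, u0, v0, h4, h5, h6⟩ := hS.head
    rcases ul with _ | ⟨a', ul'⟩
    · exact hul0 rfl
    rcases vl with _ | ⟨b', vl'⟩
    · exact hvl0 rfl
    rw [h4, List.cons_append] at hu1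
    rw [h5, List.cons_append] at hv1
    rw [List.cons_append, List.cons_append] at h3
    have h7 := (List.cons.inj hu1).1
    have h8 := (List.cons.inj hv1).1
    have h9 := (List.cons.inj h3).1
    exact h6 (by rw [h7, h8, h9])
  by_cases h1 : eu = fu - δ
  · have h2 : ev = fv - δ := by
      by_contra h3
      rw [if_neg (by omega : ¬ ev = fu - δ), if_neg h3] at hcv
      apply hMne
      linarith
    exact hshort ut vt
      (hval u ul ur uh ut u rfl hu1 rfl hu4 hu3 heu (by omega))
      (hval v vl vr vh vt v hrel.symm hv1 hrel.symm hv4 hv3 hev (by omega))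
  · rw [if_neg h1] at hcu
    have h2 : eu = fv - δ := by
      by_contra h3
      rw [if_neg h3] at hcu
      apply hMne
      linarith
    have h3 : ev = fu - δ := by
      by_contra h4
      rw [if_neg h4, if_neg (by omega : ¬ ev = fv - δ)] at hcv
      apply hMne
      linarith
    exact hshort vt ut
      (hval u ul ur vh vt v rfl hu1 hrel.symm hv4 hu3 heu (by omega))
      (hval v vl vr uh ut u hrel.symm hv1 rfl hu4 hv3 hev (by omega))

end Pool.Agent.H.MP_48f3d1_lc.Cyc
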