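import Pool.Agent.H.MP_48f3d1_lc.Par
import Pool.Agent.H.MP_48f3d1_lc.Lin.Class
import Pool.Agent.H.MP_48f3d1_lc.Cyc.Exist
import Pool.Agent.H.MP_48f3d1_lc.Cyc.Final

/-! The free hull of a finite family of words. -/

namespace Pool.Agent.H.MP_48f3d1_lc

open Pool.Agent.H.MP_48f3d1_lc.Lin (flat flat_nil flat_cons flat_append flat_single val
  val_append val_cons val_nil lift_flat hom_flat)

/-- a free submonoid of the monoid of all words: the image of an injective morphism from a monoid
of words -/
def FreeSub {σ : Type} (M : Submonoid (FreeMonoid σ)) : Prop :=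
  ∃ (κ : Type) (f : FreeMonoid κ →* FreeMonoid σ), Function.Injective f ∧ MonoidHom.mrange f = M

/-- the free hull of the words `X i`: the smallest free submonoid which contains them -/
def IsHull {ι σ : Type} (X : ι → FreeMonoid σ) (M : Submonoid (FreeMonoid σ)) : Prop :=
  FreeSub M ∧ (∀ i, X i ∈ M) ∧
    ∀ M' : Submonoid (FreeMonoid σ), FreeSub M' → (∀ i, X i ∈ M') → M ≤ M'

/-- the free hull of the words `X i` has rank at least `d`: it is not generated by fewer than `d`
words -/
def HullGE {ι σ : Type} (d : ℕ) (X : ι → FreeMonoid σ) : Prop :=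
  ∀ T : Finset (FreeMonoid σ), IsHull X (Submonoid.closure (T : Set (FreeMonoid σ))) →
    d ≤ T.card

namespace Cyc

/-- free submonoids are stable -/
theorem stable {σ : Type} {M : Submonoid (FreeMonoid σ)} (hM : FreeSub M)
    {p w q : FreeMonoid σ} (hp : p ∈ M) (hpw : p * w ∈ M) (hwq : w * q ∈ M) (hq : q ∈ M) :
    w ∈ M := by
  obtain ⟨κ, f, hf, rfl⟩ := hM
  obtain ⟨β, hβ⟩ := hp
  obtain ⟨α, hα⟩ := hpw
  obtain ⟨ν, hν⟩ := hwq
  obtain ⟨μ, hμ⟩ := hq
  have h1 : α * μ = β * ν := by
    apply hf
    rw [map_mul, map_mul, hα, hβ, hν, hμ, mul_assoc]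
  have h2 : FreeMonoid.toList α ++ FreeMonoid.toList μ =
      FreeMonoid.toList β ++ FreeMonoid.toList ν := h1
  rcases List.append_eq_append_iff.1 h2 with ⟨g, h3, -⟩ | ⟨g, h3, -⟩
  · have h4 : β = α * FreeMonoid.ofList g := h3
    have h5 : p * (w * f (FreeMonoid.ofList g)) = p * 1 := by
      rw [← mul_assoc, ← hα, ← map_mul, ← h4, hβ, mul_one]
    have h6 := mul_left_cancel h5
    have h7 : w = 1 := by
      have h8 := congrArg FreeMonoid.length h6
      rw [FreeMonoid.length_mul, FreeMonoid.length_one] at h8
      exact FreeMonoid.length_eq_zero.1 (by omega)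
    rw [h7]
    exact Submonoid.one_mem _
  · have h4 : α = β * FreeMonoid.ofList g := h3
    refine ⟨FreeMonoid.ofList g, ?_⟩
    have h5 : p * f (FreeMonoid.ofList g) = p * w := by
      rw [← hα, ← hβ, ← map_mul, ← h4]
    exact mul_left_cancel h5

theorem flat_mem {ι σ : Type} {M : Submonoid (FreeMonoid σ)} {x : ι → List σ} {J : Finset ι}
    (h : ∀ i ∈ J, FreeMonoid.ofList (x i) ∈ M) (u : List ι) (hu : ∀ i ∈ u, i ∈ J) :
    FreeMonoid.ofList (flat x u) ∈ M := by
  induction u with
  | nil => exact Submonoid.one_mem _
  | cons a u ih =>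
    rw [flat_cons, FreeMonoid.ofList_append]
    exact Submonoid.mul_mem _ (h a (hu a (List.mem_cons_self ..)))
      (ih fun i hi => hu i (List.mem_cons_of_mem _ hi))

theorem flat_congr' {ι σ : Type} {x x' : ι → List σ} (u : List ι) (h : ∀ i ∈ u, x i = x' i) :
    flat x u = flat x' u := by
  induction u with
  | nil => rfl
  | cons a u ih =>
    rw [flat_cons, flat_cons, h a (List.mem_cons_self ..),
      ih fun i hi => h i (List.mem_cons_of_mem _ hi)]

/-- a relation with different first letters -/
theorem heads {ι σ : Type} {x : ι → List σ} {J : Finset ι} (hx : ∀ i ∈ J, x i ≠ []) :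
    ∀ u v : List ι, (∀ i ∈ u, i ∈ J) → (∀ i ∈ v, i ∈ J) → flat x u = flat x v → u ≠ v →
    ∃ a b u' v', a ≠ b ∧ a ∈ J ∧ b ∈ J ∧ (∀ i ∈ u', i ∈ J) ∧ (∀ i ∈ v', i ∈ J) ∧
      x a ++ flat x u' = x b ++ flat x v' := by
  intro u
  induction u with
  | nil =>
    intro v _ hv h hne
    rcases v with _ | ⟨b, v⟩
    · exact absurd rfl hne
    · rw [flat_nil, flat_cons] at h
      exact absurd (List.append_eq_nil_iff.1 h.symm).1 (hx b (hv b (List.mem_cons_self ..)))
  | cons a u ih =>
    intro v hu hv h hne
    rcases v with _ | ⟨b, v⟩
    · rw [flat_nil, flat_cons] at h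
      exact absurd (List.append_eq_nil_iff.1 h).1 (hx a (hu a (List.mem_cons_self ..)))
    · rw [flat_cons, flat_cons] at h
      by_cases hab : a = b
      · subst hab
        exact ih v (fun i hi => hu i (List.mem_cons_of_mem _ hi))
          (fun i hi => hv i (List.mem_cons_of_mem _ hi)) (List.append_cancel_left h)
          (fun h' => hne (by rw [h']))
      · exact ⟨a, b, u, v, hab, hu a (List.mem_cons_self ..), hv b (List.mem_cons_self ..),
          fun i hi => hu i (List.mem_cons_of_mem _ hi),
          fun i hi => hv i (List.mem_cons_of_mem _ hi), h⟩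

/-- the free hull and the coordinates in it -/
theorem hull_aux {ι σ : Type} [DecidableEq ι] : ∀ (n : ℕ) (J : Finset ι) (x : ι → List σ),
    (∀ i ∈ J, x i ≠ []) → ∑ i ∈ J, (x i).length ≤ n →
    ∃ (K : Finset ι) (y : ι → List σ) (θ : ι → List ι),
      (∀ i ∈ J, ∀ k ∈ θ i, k ∈ K) ∧ (∀ i ∈ J, flat y (θ i) = x i) ∧
      (∀ u v : List ι, (∀ k ∈ u, k ∈ K) → (∀ k ∈ v, k ∈ K) → flat y u = flat y v → u = v) ∧
      (∀ M : Submonoid (FreeMonoid σ), FreeSub M → (∀ i ∈ J, FreeMonoid.ofList (x i) ∈ M) →
        ∀ k ∈ K, FreeMonoid.ofList (y k) ∈ M) ∧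
      (∀ k ∈ K, FreeGroup.of k ∈ sub θ J) := by
  classical
  intro n
  induction n with
  | zero =>
    intro J x hx hn
    have hJ : J = ∅ := by
      rw [Finset.eq_empty_iff_forall_notMem]
      intro i hi
      have h1 := List.length_pos_of_ne_nil (hx i hi)
      have h2 : (x i).length ≤ ∑ i ∈ J, (x i).length :=
        Finset.single_le_sum (f := fun i => (x i).length) (fun _ _ => Nat.zero_le _) hi
      omega
    subst hJ
    refine ⟨∅, x, fun _ => [], by simp, by simp, ?_, by simp, by simp⟩
    intro u v hu hv _
    rw [List.eq_nil_iff_forall_not_mem.2 fun k hk => Finset.notMem_empty k (hu k hk),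
      List.eq_nil_iff_forall_not_mem.2 fun k hk => Finset.notMem_empty k (hv k hk)]
  | succ n ih =>
    intro J x hx hn
    by_cases hcode : ∀ u v : List ι, (∀ k ∈ u, k ∈ J) → (∀ k ∈ v, k ∈ J) →
        flat x u = flat x v → u = v
    · refine ⟨J, x, fun i => [i], ?_, ?_, hcode, fun M _ h => h, ?_⟩
      · intro i hi k hk
        rw [List.mem_singleton] at hk
        rwa [hk]
      · intro i _
        exact flat_single x i
      · intro k hk
        have h1 := mem_sub (σ := ι) (fun i => [i]) hk
        simp only [val_cons, val_nil, mul_one] at h1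
        exact h1
    · push Not at hcode
      obtain ⟨u, v, hu, hv, huv, hne⟩ := hcode
      have hmain : ∀ (a b : ι) (u' v' : List ι), a ≠ b → a ∈ J → b ∈ J → (∀ i ∈ u', i ∈ J) →
          (∀ i ∈ v', i ∈ J) → x a ++ flat x u' = x b ++ flat x v' →
          (x b).length ≤ (x a).length →
          ∃ (K : Finset ι) (y : ι → List σ) (θ : ι → List ι),
            (∀ i ∈ J, ∀ k ∈ θ i, k ∈ K) ∧ (∀ i ∈ J, flat y (θ i) = x i) ∧
            (∀ u v : List ι, (∀ k ∈ u, k ∈ K) → (∀ k ∈ v, k ∈ K) → flat y u = flat y v →
              u = v) ∧
            (∀ M : Submonoid (FreeMonoid σ), FreeSub M →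
              (∀ i ∈ J, FreeMonoid.ofList (x i) ∈ M) → ∀ k ∈ K, FreeMonoid.ofList (y k) ∈ M) ∧
            (∀ k ∈ K, FreeGroup.of k ∈ sub θ J) := by
        intro a b u' v' hab ha hb hu' hv' h1 h2
        obtain ⟨t, ht⟩ : x b <+: x a := by
          refine prefix_of (w := x a ++ flat x u') ?_ (List.prefix_append _ _) h2
          rw [h1]
          exact List.prefix_append _ _
        have ht' : x a = x b ++ t := ht.symm
        rcases eq_or_ne t [] with ht0 | ht0
        · rw [ht0, List.append_nil] at ht'
          have h3 : ∑ i ∈ J.erase a, (x i).length + (x a).length = ∑ i ∈ J, (x i).length :=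
            Finset.sum_erase_add _ _ ha
          have h4 := List.length_pos_of_ne_nil (hx a ha)
          obtain ⟨K, y, θ, e1, e2, e3, e4, e5⟩ := ih (J.erase a) x
            (fun i hi => hx i (Finset.mem_of_mem_erase hi)) (by omega)
          have hbJ : b ∈ J.erase a := Finset.mem_erase.2 ⟨hab.symm, hb⟩
          refine ⟨K, y, Function.update θ a (θ b), ?_, ?_, e3, ?_, ?_⟩
          · intro i hi k hk
            rcases eq_or_ne i a with rfl | hia
            · rw [Function.update_self] at hk
              exact e1 b hbJ k hk
            · rw [Function.update_of_ne hia] at hk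
              exact e1 i (Finset.mem_erase.2 ⟨hia, hi⟩) k hk
          · intro i hi
            rcases eq_or_ne i a with rfl | hia
            · rw [Function.update_self, e2 b hbJ, ht']
            · rw [Function.update_of_ne hia]
              exact e2 i (Finset.mem_erase.2 ⟨hia, hi⟩)
          · intro M hM h5
            exact e4 M hM fun i hi => h5 i (Finset.mem_of_mem_erase hi)
          · intro k hk
            have h5 := e5 k hk
            refine (?_ : sub θ (J.erase a) ≤ _) h5
            refine (Subgroup.closure_le _).2 ?_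
            rintro _ ⟨i, hi, rfl⟩
            have hi' := Finset.mem_erase.1 (Finset.mem_coe.1 hi)
            have h6 := mem_sub (Function.update θ a (θ b)) hi'.2
            rwa [Function.update_of_ne hi'.1] at h6
        · have h3 := sum_update_lt hab ha (hx b hb) ht'
          obtain ⟨K, y, θ, e1, e2, e3, e4, e5⟩ := ih J (Function.update x a t) (by
            intro i hi
            rcases eq_or_ne i a with rfl | hia
            · rwa [Function.update_self]
            · rw [Function.update_of_ne hia]
              exact hx i hi) (by omega)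
          have e2a := e2 a ha
          rw [Function.update_self] at e2a
          have e2b := e2 b hb
          rw [Function.update_of_ne hab.symm] at e2b
          refine ⟨K, y, Function.update θ a (θ b ++ θ a), ?_, ?_, e3, ?_, ?_⟩
          · intro i hi k hk
            rcases eq_or_ne i a with rfl | hia
            · rw [Function.update_self, List.mem_append] at hk
              rcases hk with hk | hk
              · exact e1 b hb k hk
              · exact e1 i hi k hk
            · rw [Function.update_of_ne hia] at hk
              exact e1 i hi k hk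
          · intro i hi
            rcases eq_or_ne i a with rfl | hia
            · rw [Function.update_self, flat_append, e2a, e2b, ht']
            · rw [Function.update_of_ne hia, e2 i hi, Function.update_of_ne hia]
          · intro M hM h5
            apply e4 M hM
            intro i hi
            rcases eq_or_ne i a with rfl | hia
            · rw [Function.update_self]
              refine stable hM (h5 b hb) (q := FreeMonoid.ofList (flat x u')) ?_ ?_
                (flat_mem h5 u' hu')
              · rw [← FreeMonoid.ofList_append, ← ht']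
                exact h5 i hi
              · rw [← FreeMonoid.ofList_append]
                have h6 : t ++ flat x u' = flat x v' := by
                  rw [ht', List.append_assoc] at h1
                  exact List.append_cancel_left h1
                rw [h6]
                exact flat_mem h5 v' hv'
            · rw [Function.update_of_ne hia]
              exact h5 i hi
          · intro k hk
            refine (?_ : sub θ J ≤ _) (e5 k hk)
            refine (Subgroup.closure_le _).2 ?_
            rintro _ ⟨i, hi, rfl⟩
            have hb' := mem_sub (Function.update θ a (θ b ++ θ a)) hb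
            rw [Function.update_of_ne hab.symm] at hb'
            rcases eq_or_ne i a with rfl | hia
            · have ha' := mem_sub (Function.update θ i (θ b ++ θ i)) ha
              rw [Function.update_self, val_append] at ha'
              have h6 := Subgroup.mul_mem _ (Subgroup.inv_mem _ hb') ha'
              rwa [inv_mul_cancel_left] at h6
            · have hi' := mem_sub (Function.update θ a (θ b ++ θ a)) (Finset.mem_coe.1 hi)
              rwa [Function.update_of_ne hia] at hi'
      obtain ⟨a, b, u', v', h1, h2, h3, h4, h5, h6⟩ := heads hx u v hu hv huv hne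
      rcases Nat.le_total (x b).length (x a).length with h7 | h7
      · exact hmain a b u' v' h1 h2 h3 h4 h5 h6 h7
      · exact hmain b a v' u' h1.symm h3 h2 h5 h4 h6.symm h7

theorem val_emb {κ : Type} (w : FreeMonoid κ) :
    val FreeGroup.of (FreeMonoid.toList w) = emb κ w := by
  induction w using FreeMonoid.recOn with
  | one => rfl
  | of_mul a w ih =>
    rw [FreeMonoid.toList_mul, val_append, ih, (emb κ).map_mul, FreeMonoid.toList_of, val_cons,
      val_nil, mul_one]
    rfl

/-- The free hull of nonempty words, and the coordinates in it, which generate the free group. -/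
theorem hull {ι σ : Type} [Fintype ι] (X : ι → FreeMonoid σ) (hX : ∀ i, X i ≠ 1) :
    ∃ (κ : Type) (_ : Fintype κ) (θ : ι → FreeMonoid κ) (Y : κ → FreeMonoid σ),
      Function.Injective (FreeMonoid.lift Y) ∧ (∀ i, FreeMonoid.lift Y (θ i) = X i) ∧
      (∀ M : Submonoid (FreeMonoid σ), FreeSub M → (∀ i, X i ∈ M) → ∀ k, Y k ∈ M) ∧
      grp θ = ⊤ := by
  classical
  obtain ⟨K, y, θ0, e1, e2, e3, e4, e5⟩ := hull_aux _ Finset.univ
    (fun i => FreeMonoid.toList (X i)) (fun i _ h => hX i h) le_rfl
  have hθ : ∀ i, ∃ l : List K, l.map Subtype.val = θ0 i := by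
    intro i
    have h1 := e1 i (Finset.mem_univ i)
    lift θ0 i to List K using h1 with l hl
    exact ⟨l, rfl⟩
  choose θ hθ using hθ
  have hlift : ∀ w : List K, FreeMonoid.lift (fun k : K => FreeMonoid.ofList (y k))
      (FreeMonoid.ofList w) = FreeMonoid.ofList (flat y (w.map Subtype.val)) := by
    intro w
    rw [lift_flat (fun k : K => y k) w]
    congr 1
    induction w with
    | nil => rfl
    | cons a w ih => rw [List.map_cons, flat_cons, flat_cons, ih]
  refine ⟨K, inferInstance, fun i => FreeMonoid.ofList (θ i), fun k => FreeMonoid.ofList (y k),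
    ?_, ?_, ?_, ?_⟩
  · intro u v huv
    have h1 := hlift (FreeMonoid.toList u)
    have h2 := hlift (FreeMonoid.toList v)
    rw [FreeMonoid.ofList_toList] at h1 h2
    rw [h1, h2] at huv
    have h3 := e3 _ _ (fun k hk => by
      obtain ⟨k', -, rfl⟩ := List.mem_map.1 hk
      exact k'.2) (fun k hk => by
      obtain ⟨k', -, rfl⟩ := List.mem_map.1 hk
      exact k'.2) (FreeMonoid.ofList.injective huv)
    exact FreeMonoid.toList.injective (List.map_injective_iff.2 Subtype.val_injective h3)
  · intro i
    rw [hlift, hθ, e2 i (Finset.mem_univ i), FreeMonoid.ofList_toList]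
  · intro M hM h k
    exact e4 M hM (fun i _ => by
      rw [FreeMonoid.ofList_toList]
      exact h i) k k.2
  · rw [eq_top_iff, ← FreeGroup.closure_range_of, Subgroup.closure_le]
    rintro _ ⟨k, rfl⟩
    let ρ : FreeGroup ι →* FreeGroup K :=
      FreeGroup.lift fun j => if h : j ∈ K then FreeGroup.of ⟨j, h⟩ else 1
    have h1 : ρ (FreeGroup.of (k : ι)) = FreeGroup.of k := by
      simp only [ρ, FreeGroup.lift_apply_of]
      rw [dif_pos k.2]
    have hρ : ∀ w : List K, ρ (val FreeGroup.of (w.map Subtype.val)) = val FreeGroup.of w := by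
      intro w
      induction w with
      | nil => rw [List.map_nil, val_nil, val_nil, map_one]
      | cons a w ih =>
        rw [List.map_cons, val_cons, val_cons, map_mul, ih]
        congr 1
        simp only [ρ, FreeGroup.lift_apply_of]
        rw [dif_pos a.2]
    have h2 := Subgroup.mem_map_of_mem ρ (e5 k k.2)
    rw [h1] at h2
    refine (?_ : Subgroup.map ρ (sub θ0 Finset.univ) ≤ _) h2
    unfold sub
    rw [MonoidHom.map_closure]
    refine (Subgroup.closure_le _).2 ?_
    rintro _ ⟨_, ⟨i, -, rfl⟩, rfl⟩
    refine Subgroup.subset_closure ⟨i, ?_⟩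
    simp only
    rw [← hθ, hρ]
    exact (val_emb (FreeMonoid.ofList (θ i))).symm

end Cyc

end Pool.Agent.H.MP_48f3d1_lc
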