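import Pool.Agent.H.MP_48f3d1_lc.Cyc.Words

/-! Cycles of occurrences: removing a prefix, and the rank of a family with a cycle. -/

namespace Pool.Agent.H.MP_48f3d1_lc.Cyc

open Polynomial
open Pool.Agent.H.MP_48f3d1_lc.Lin (val val_append)

variable {ι σ : Type} [DecidableEq ι]

/-- the cycle `c` after the word `x b`, of length `k`, has been removed from the beginning of
the word `x a` -/
noncomputable def peel (a b : ι) (k : ℕ) (c : ι → ℤ[X]) : ι → ℤ[X] :=
  Function.update (Function.update c b (c b + c a)) a (X ^ k * c a)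

theorem peel_a (a b : ι) (k : ℕ) (c : ι → ℤ[X]) : peel a b k c a = X ^ k * c a := by
  unfold peel
  rw [Function.update_self]

theorem peel_b {a b : ι} (h : a ≠ b) (k : ℕ) (c : ι → ℤ[X]) : peel a b k c b = c b + c a := by
  unfold peel
  rw [Function.update_of_ne h.symm, Function.update_self]

theorem peel_ne {a b i : ι} (ha : i ≠ a) (hb : i ≠ b) (k : ℕ) (c : ι → ℤ[X]) :
    peel a b k c i = c i := by
  unfold peel
  rw [Function.update_of_ne ha, Function.update_of_ne hb]

theorem peel_inj {a b : ι} (h : a ≠ b) (k : ℕ) {c c' : ι → ℤ[X]}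
    (hp : peel a b k c = peel a b k c') : c = c' := by
  have ha := congrFun hp a
  rw [peel_a, peel_a] at ha
  have ha' : c a = c' a := mul_left_cancel₀ (pow_ne_zero k X_ne_zero) ha
  have hb := congrFun hp b
  rw [peel_b h, peel_b h, ha'] at hb
  ext1 i
  rcases eq_or_ne i a with rfl | hia
  · exact ha'
  rcases eq_or_ne i b with rfl | hib
  · exact add_right_cancel hb
  · have := congrFun hp i
    rwa [peel_ne hia hib, peel_ne hia hib] at this

theorem peel_smul {a b : ι} (h : a ≠ b) (k : ℕ) (D : ℤ[X]) (c : ι → ℤ[X]) :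
    peel a b k (fun i => D * c i) = fun i => D * peel a b k c i := by
  ext1 i
  rcases eq_or_ne i a with rfl | hia
  · rw [peel_a, peel_a]
    ring
  rcases eq_or_ne i b with rfl | hib
  · rw [peel_b h, peel_b h]
    ring
  · rw [peel_ne hia hib, peel_ne hia hib]

theorem peel_sum [Fintype ι] {a b : ι} (h : a ≠ b) {x : ι → List σ} {t : List σ}
    (ht : x a = x b ++ t) (c : ι → ℤ[X]) :
    ∑ i, peel a b (x b).length c i * (1 - X ^ (Function.update x a t i).length) =
      ∑ i, c i * (1 - X ^ (x i).length) := by
  rw [← sub_eq_zero, ← Finset.sum_sub_distrib, Fintype.sum_eq_add a b h]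
  · rw [peel_a, peel_b h, Function.update_self, Function.update_of_ne h.symm, ht,
      List.length_append, pow_add]
    ring
  · rintro i ⟨hia, hib⟩
    rw [peel_ne hia hib, Function.update_of_ne hia, sub_self]

theorem peel_cyc [Fintype ι] {a b : ι} (h : a ≠ b) {x : ι → List σ} {t w : List σ}
    (ht : x a = x b ++ t) {c : ι → ℤ[X]} (hc : IsCyc x w c) :
    IsCyc (Function.update x a t) w (peel a b (x b).length c) := by
  obtain ⟨h1, h2⟩ := hc
  refine ⟨?_, ?_⟩
  · intro i q hq
    rcases eq_or_ne i a with rfl | hia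
    · rw [peel_a, coeff_X_pow_mul'] at hq
      rw [Function.update_self]
      split_ifs at hq with hle
      · have h3 := h1 i _ hq
        unfold Occ at h3 ⊢
        rw [ht] at h3
        have h4 := h3.drop (x b).length
        rw [List.drop_left, List.drop_drop, Nat.sub_add_cancel hle] at h4
        exact h4
      · exact absurd rfl hq
    rcases eq_or_ne i b with rfl | hib
    · rw [peel_b h, coeff_add] at hq
      rw [Function.update_of_ne hia]
      rcases eq_or_ne ((c i).coeff q) 0 with h3 | h3
      · rw [h3, zero_add] at hq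
        have h4 := h1 a q hq
        unfold Occ at h4 ⊢
        rw [ht] at h4
        exact (List.prefix_append _ _).trans h4
      · exact h1 i q h3
    · rw [peel_ne hia hib] at hq
      rw [Function.update_of_ne hia]
      exact h1 i q hq
  · rw [peel_sum h ht, h2]

theorem peel_ne_zero {a b : ι} (h : a ≠ b) (k : ℕ) {c : ι → ℤ[X]} (hc : ∃ i, c i ≠ 0) :
    ∃ i, peel a b k c i ≠ 0 := by
  by_contra hcon
  push Not at hcon
  obtain ⟨i, hi⟩ := hc
  apply hi
  have h1 : c = 0 := by
    apply peel_inj h k
    ext1 j
    rw [hcon j]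
    rcases eq_or_ne j a with rfl | hja
    · rw [peel_a]
      simp
    rcases eq_or_ne j b with rfl | hjb
    · rw [peel_b h]
      simp
    · rw [peel_ne hja hjb]
      simp
  rw [h1]
  rfl

omit [DecidableEq ι] in
/-- two words start at the first position of a cycle -/
theorem exists_min [Fintype ι] {x : ι → List σ} {w : List σ} {c : ι → ℤ[X]}
    (hc : IsCyc x w c) (hx : ∀ i, c i ≠ 0 → x i ≠ []) (h0 : ∃ i, c i ≠ 0) :
    ∃ r a b, a ≠ b ∧ (c a).coeff r ≠ 0 ∧ (c b).coeff r ≠ 0 := by
  classical
  obtain ⟨-, h2⟩ := hc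
  have h1 : ∃ r i, (c i).coeff r ≠ 0 := by
    obtain ⟨i, hi⟩ := h0
    by_contra hcon
    push Not at hcon
    exact hi (Polynomial.ext fun n => by rw [hcon n i, coeff_zero])
  obtain ⟨a, ha⟩ := Nat.find_spec h1
  have hmin : ∀ m, m < Nat.find h1 → ∀ i, (c i).coeff m = 0 := by
    intro m hm i
    by_contra hcon
    exact Nat.find_min h1 hm ⟨i, hcon⟩
  refine ⟨Nat.find h1, a, ?_⟩
  set r := Nat.find h1 with hr
  by_contra hcon
  push Not at hcon
  have h3 : ∑ i, (c i).coeff r = 0 := by
    have h4 := congrArg (fun p : ℤ[X] => p.coeff r) h2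
    simp only [finsetSum_coeff, coeff_zero] at h4
    rw [← h4]
    refine Finset.sum_congr rfl fun i _ => ?_
    rw [mul_sub, mul_one, coeff_sub, coeff_mul_X_pow']
    rcases eq_or_ne (c i) 0 with h5 | h5
    · rw [h5]
      simp
    · have h6 := List.length_pos_of_ne_nil (hx i h5)
      split_ifs with h7
      · rw [hmin (r - (x i).length) (by omega), sub_zero]
      · rw [sub_zero]
  rw [Fintype.sum_eq_single a] at h3
  · exact ha h3
  · intro b hb
    by_contra h4
    exact h4 (hcon b hb.symm ha)

omit [DecidableEq ι] in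
theorem exists_pair [Fintype ι] {x : ι → List σ} {w : List σ} {c : ι → ℤ[X]}
    (hc : IsCyc x w c) (hx : ∀ i, c i ≠ 0 → x i ≠ []) (h0 : ∃ i, c i ≠ 0) :
    ∃ a b t, a ≠ b ∧ c a ≠ 0 ∧ c b ≠ 0 ∧ x a = x b ++ t := by
  obtain ⟨r, a, b, hab, ha, hb⟩ := exists_min hc hx h0
  have hna : ∀ j, (c j).coeff r ≠ 0 → c j ≠ 0 := by
    intro j hj h
    apply hj
    rw [h, coeff_zero]
  have h1 := hc.1 a r ha
  have h2 := hc.1 b r hb
  rcases Nat.le_total (x a).length (x b).length with hl | hl
  · obtain ⟨t, ht⟩ := prefix_of h1 h2 hl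
    exact ⟨b, a, t, hab.symm, hna b hb, hna a ha, ht.symm⟩
  · obtain ⟨t, ht⟩ := prefix_of h2 h1 hl
    exact ⟨a, b, t, hab, hna a ha, hna b hb, ht.symm⟩

/-- the subgroup generated by the words `x i` with `i` in `J` -/
def sub (x : ι → List σ) (J : Finset ι) : Subgroup (FreeGroup σ) :=
  Subgroup.closure ((fun i => val FreeGroup.of (x i)) '' (J : Set ι))

omit [DecidableEq ι] in
theorem mem_sub (x : ι → List σ) {J : Finset ι} {i : ι} (hi : i ∈ J) :
    val FreeGroup.of (x i) ∈ sub x J :=
  Subgroup.subset_closure ⟨i, hi, rfl⟩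

theorem sub_update {a b : ι} (h : a ≠ b) {x : ι → List σ} {t : List σ} {J : Finset ι}
    (ha : a ∈ J) (hb : b ∈ J) (ht : x a = x b ++ t) : sub (Function.update x a t) J = sub x J := by
  have h1 : val FreeGroup.of (x a) = val FreeGroup.of (x b) * val FreeGroup.of t := by
    rw [ht, val_append]
  apply le_antisymm
  · refine (Subgroup.closure_le _).2 ?_
    rintro _ ⟨i, hi, rfl⟩
    rcases eq_or_ne i a with rfl | hia
    · simp only [Function.update_self]
      have h2 : val FreeGroup.of t = (val FreeGroup.of (x b))⁻¹ * val FreeGroup.of (x i) := by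
        rw [h1]
        group
      rw [h2]
      exact Subgroup.mul_mem _ (Subgroup.inv_mem _ (mem_sub x hb)) (mem_sub x hi)
    · simp only [Function.update_of_ne hia]
      exact mem_sub x hi
  · refine (Subgroup.closure_le _).2 ?_
    rintro _ ⟨i, hi, rfl⟩
    have hb' := mem_sub (Function.update x a t) hb
    rw [Function.update_of_ne h.symm] at hb'
    rcases eq_or_ne i a with rfl | hia
    · have ha' := mem_sub (Function.update x i t) hi
      rw [Function.update_self] at ha'
      simp only
      rw [h1]
      exact Subgroup.mul_mem _ hb' ha'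
    · have hi' := mem_sub (Function.update x a t) hi
      rw [Function.update_of_ne hia] at hi'
      exact hi'

theorem sum_update_lt {a b : ι} (h : a ≠ b) {x : ι → List σ} {t : List σ} {J : Finset ι}
    (ha : a ∈ J) (hb : x b ≠ []) (ht : x a = x b ++ t) :
    ∑ i ∈ J, (Function.update x a t i).length < ∑ i ∈ J, (x i).length := by
  refine Finset.sum_lt_sum ?_ ⟨a, ha, ?_⟩
  · intro i _
    rcases eq_or_ne i a with rfl | hia
    · rw [Function.update_self, ht, List.length_append]
      omega
    · rw [Function.update_of_ne hia]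
  · rw [Function.update_self, ht, List.length_append]
    have := List.length_pos_of_ne_nil hb
    omega

/-- a family of words with a nonzero cycle generates a subgroup of smaller rank -/
theorem lemN [Fintype ι] : ∀ (n : ℕ) (J : Finset ι) (x : ι → List σ) (w : List σ)
    (c : ι → ℤ[X]), ∑ i ∈ J, (x i).length ≤ n → (∀ i ∈ J, x i ≠ []) → (∀ i ∉ J, c i = 0) →
    IsCyc x w c → (∃ i, c i ≠ 0) →
    ∃ T : Finset (FreeGroup σ), Subgroup.closure (T : Set (FreeGroup σ)) = sub x J ∧
      T.card < J.card := by
  classical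
  intro n
  induction n with
  | zero =>
    intro J x w c hn hx hJ _ h0
    obtain ⟨i, hi⟩ := h0
    have hiJ : i ∈ J := by
      by_contra hcon
      exact hi (hJ i hcon)
    have h1 := List.length_pos_of_ne_nil (hx i hiJ)
    have h2 : (x i).length ≤ ∑ i ∈ J, (x i).length :=
      Finset.single_le_sum (f := fun i => (x i).length) (fun _ _ => Nat.zero_le _) hiJ
    omega
  | succ n ih =>
    intro J x w c hn hx hJ hc h0
    have hJ' : ∀ i, c i ≠ 0 → i ∈ J := by
      intro i hi
      by_contra hcon
      exact hi (hJ i hcon)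
    obtain ⟨a, b, t, hab, ha, hb, ht⟩ := exists_pair hc (fun i hi => hx i (hJ' i hi)) h0
    rcases eq_or_ne t [] with ht0 | ht0
    · refine ⟨(J.erase a).image fun i => val FreeGroup.of (x i), ?_, ?_⟩
      · rw [Finset.coe_image]
        apply le_antisymm
        · exact Subgroup.closure_mono (Set.image_mono (Finset.coe_subset.2 (Finset.erase_subset _ _)))
        · refine (Subgroup.closure_le _).2 ?_
          rintro _ ⟨i, hi, rfl⟩
          rcases eq_or_ne i a with rfl | hia
          · refine Subgroup.subset_closure ⟨b, ?_, ?_⟩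
            · exact Finset.mem_coe.2 (Finset.mem_erase.2 ⟨hab.symm, hJ' b hb⟩)
            · simp only
              rw [ht, ht0, List.append_nil]
          · exact Subgroup.subset_closure ⟨i, Finset.mem_coe.2 (Finset.mem_erase.2 ⟨hia, hi⟩), rfl⟩
      · calc _ ≤ (J.erase a).card := Finset.card_image_le
          _ < J.card := Finset.card_erase_lt_of_mem (hJ' a ha)
    · have h1 := sum_update_lt hab (hJ' a ha) (hx b (hJ' b hb)) ht
      obtain ⟨T, hT, hT'⟩ := ih J (Function.update x a t) w (peel a b (x b).length c) (by omega)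
        (by
          intro i hi
          rcases eq_or_ne i a with rfl | hia
          · rwa [Function.update_self]
          · rw [Function.update_of_ne hia]
            exact hx i hi)
        (by
          intro i hi
          have hia : i ≠ a := by
            rintro rfl
            exact hi (hJ' _ ha)
          have hib : i ≠ b := by
            rintro rfl
            exact hi (hJ' _ hb)
          rw [peel_ne hia hib]
          exact hJ i hi)
        (peel_cyc hab ht hc) (peel_ne_zero hab _ h0)
      exact ⟨T, by rw [hT, sub_update hab (hJ' a ha) (hJ' b hb) ht], hT'⟩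

end Pool.Agent.H.MP_48f3d1_lc.Cyc
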