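import Pool.Agent.H.MP_48f3d1_lc.Cyc.Comb
import Pool.Agent.H.MP_48f3d1_lc.Cyc.Peel

/-! A universal cycle of a family of words, from one of the family after removing a prefix. -/

namespace Pool.Agent.H.MP_48f3d1_lc.Cyc

open Polynomial

variable {σ : Type}

theorem exists_g {P y w : List σ} {D p : ℤ[X]} (h1 : ∀ s, D.coeff s ≠ 0 → Occ P w s)
    (h2 : ∀ q, p.coeff q ≠ 0 → q < P.length) (h3 : ∀ r, (D * p).coeff r ≠ 0 → y <:+ w.take r)
    (hD : D ≠ 0) (hp : p ≠ 0) :
    ∃ g : List σ, y.length ≤ g.length + p.natTrailingDegree ∧ g.length ≤ y.length ∧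
      (g ≠ [] → y = g ++ P.take p.natTrailingDegree) ∧
      ∀ q, p.coeff q ≠ 0 → y <:+ g ++ P.take q := by
  have hok := first_ok h1 h2 h3 hD hp
  have hq0 : p.coeff p.natTrailingDegree ≠ 0 := trail_ne hp
  have hs0 : D.coeff D.natTrailingDegree ≠ 0 := trail_ne hD
  set q0 := p.natTrailingDegree with hq0'
  set s0 := D.natTrailingDegree with hs0'
  have hP := h2 q0 hq0
  have hl : (P.take q0).length = q0 := by
    rw [List.length_take, min_eq_left hP.le]
  have h4 := hok q0 hq0
  rw [take_occ (h1 s0 hs0) hP.le] at h4
  -- the word `g`
  have hex : ∃ g : List σ, y.length ≤ g.length + q0 ∧ g.length ≤ y.length ∧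
      (g ≠ [] → y = g ++ P.take q0) := by
    rcases Nat.le_total y.length q0 with h5 | h5
    · exact ⟨[], by simpa using h5, Nat.zero_le _, fun h => absurd rfl h⟩
    · obtain ⟨g, hg⟩ := suffix_of (List.suffix_append (w.take s0) _) h4 (by rw [hl]; exact h5)
      refine ⟨g, ?_, ?_, fun _ => hg.symm⟩
      · rw [← hg, List.length_append, hl]
      · rw [← hg, List.length_append]
        omega
  obtain ⟨g, hg1, hg2, hg3⟩ := hex
  refine ⟨g, hg1, hg2, hg3, ?_⟩
  intro q hq
  have hgw : g <:+ w.take s0 := by
    rcases eq_or_ne g [] with h5 | h5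
    · rw [h5]
      exact List.nil_suffix
    · have h6 := hg3 h5
      rw [h6] at h4
      exact suffix_cancel h4
  have h5 := hok q hq
  rw [take_occ (h1 s0 hs0) (h2 q hq).le] at h5
  refine suffix_of h5 (suffix_append_right hgw) ?_
  rw [List.length_append, List.length_take, min_eq_left (h2 q hq).le]
  have := trail_le hq
  omega

theorem preceded {P y w g : List σ} {D p : ℤ[X]} (h1 : ∀ s, D.coeff s ≠ 0 → Occ P w s)
    (h2 : ∀ q, p.coeff q ≠ 0 → q < P.length) (h3 : ∀ r, (D * p).coeff r ≠ 0 → y <:+ w.take r)
    (hp : p ≠ 0) (hg : g ≠ [] → y = g ++ P.take p.natTrailingDegree)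
    (hg' : ∀ q, p.coeff q ≠ 0 → y <:+ g ++ P.take q) : ∀ s, D.coeff s ≠ 0 → g <:+ w.take s := by
  rcases eq_or_ne g [] with h0 | h0
  · intro s _
    rw [h0]
    exact List.nil_suffix
  have hy := hg h0
  have hq0 : p.coeff p.natTrailingDegree ≠ 0 := trail_ne hp
  set q0 := p.natTrailingDegree with hq0'
  intro s
  induction s using Nat.strong_induction_on with
  | _ s ih =>
    intro hs
    have h4 : y <:+ w.take (s + q0) := by
      by_cases h5 : (D * p).coeff (s + q0) = 0
      · obtain ⟨s', q', h6, h7, h8, h9⟩ := other_term hs hq0 h5
        have h10 := trail_le h9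
        rw [← hq0'] at h10
        have h11 := ih s' (by omega) h8
        rw [← h6, take_occ (h1 s' h8) (h2 q' h9).le]
        exact (hg' q' h9).trans (suffix_append_right h11)
      · exact h3 _ h5
    rw [take_occ (h1 s hs) (h2 q0 hq0).le, hy] at h4
    exact suffix_cancel h4

variable {ι : Type} [DecidableEq ι]

theorem occ_app {x g P : List σ} {q : ℕ} (hx : x <+: P.drop q) :
    Occ x (g ++ P) (g.length + q) := by
  unfold Occ
  rw [← List.drop_drop, List.drop_left]
  exact hx

/-- An occurrence of `y ++ t`, if `t` occurs in `P` at `q` and `y` before it. -/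
theorem occ_pre {y t W : List σ} {q : ℕ} (hy : y <:+ W.take (q + y.length))
    (hq : q + y.length ≤ W.length) (ht : t <+: W.drop (q + y.length)) : Occ (y ++ t) W q := by
  unfold Occ
  obtain ⟨v, hv⟩ := hy
  obtain ⟨u, hu⟩ := ht
  have h1 : W = v ++ (y ++ t ++ u) := by
    rw [List.append_assoc, hu, ← List.append_assoc, hv, List.take_append_drop]
  have h2 : v.length = q := by
    have := congrArg List.length hv
    rw [List.length_append, List.length_take, min_eq_left hq] at this
    omega
  rw [h1, ← h2, List.drop_left]
  exact List.prefix_append _ _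

theorem lift_uni [Fintype ι] {a b : ι} (hab : a ≠ b) {x : ι → List σ} {t : List σ}
    (hx : ∀ i, x i ≠ []) (ht : x a = x b ++ t) (ht0 : t ≠ []) {P : List σ} {p : ι → ℤ[X]}
    (hU : Uni (Function.update x a t) P p) {w0 : List σ} {c0 : ι → ℤ[X]}
    (hc0 : IsCyc x w0 c0) (hc0' : ∃ i, c0 i ≠ 0) : ∃ P' p', Uni x P' p' := by
  classical
  have hxl : ∀ i, 0 < (x i).length := fun i => List.length_pos_of_ne_nil (hx i)
  have htl : 0 < t.length := List.length_pos_of_ne_nil ht0
  have hxa : (x a).length = (x b).length + t.length := by rw [ht, List.length_append]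
  have hup : ∀ i, i ≠ a → Function.update x a t i = x i := fun i hi => Function.update_of_ne hi _ _
  have hupa : Function.update x a t a = t := Function.update_self _ _ _
  rcases eq_or_ne (p a) 0 with hpa | hpa
  · -- the word `x a` does not occur
    refine ⟨P, p, ⟨?_, ?_⟩, hU.kap, hU.bot, ?_, ?_⟩
    · intro i q hq
      have hia : i ≠ a := by
        rintro rfl
        rw [hpa, coeff_zero] at hq
        exact hq rfl
      have := hU.cyc.1 i q hq
      rwa [hup i hia] at this
    · have h1 := hU.cyc.2
      rw [← h1]
      refine Finset.sum_congr rfl fun i _ => ?_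
      rcases eq_or_ne i a with rfl | hia
      · rw [hpa, zero_mul, zero_mul]
      · rw [hup i hia]
    · obtain ⟨i, h1, h2⟩ := hU.top
      have hia : i ≠ a := by
        rintro rfl
        rw [hpa, coeff_zero] at h2
        exact h2 rfl
      rw [hup i hia] at h1 h2
      exact ⟨i, h1, h2⟩
    · intro w c hc
      obtain ⟨D, h1, h2⟩ := hU.uni w _ (peel_cyc hab ht hc)
      refine ⟨D, ?_, h2⟩
      have ha := h1 a
      rw [peel_a, hpa, mul_zero] at ha
      have ha' : c a = 0 := by
        rcases mul_eq_zero.1 ha with h3 | h3
        · exact absurd h3 (pow_ne_zero _ X_ne_zero)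
        · exact h3
      intro i
      rcases eq_or_ne i a with rfl | hia
      · rw [ha', hpa, mul_zero]
      rcases eq_or_ne i b with rfl | hib
      · have hb := h1 i
        rwa [peel_b hab, ha', add_zero] at hb
      · have hi := h1 i
        rwa [peel_ne hia hib] at hi
  · -- the word `x a` occurs
    have h2 : ∀ q, (p a).coeff q ≠ 0 → q < P.length := by
      intro q hq
      have h3 := hU.cyc.1 a q hq
      rw [hupa] at h3
      have h4 := h3.length_le
      rw [List.length_drop] at h4
      omega
    have h3 : ∀ (w : List σ) (c : ι → ℤ[X]) (D : ℤ[X]), IsCyc x w c →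
        (∀ i, peel a b (x b).length c i = D * p i) →
        ∀ r, (D * p a).coeff r ≠ 0 → x b <:+ w.take r := by
      intro w c D hc hD r hr
      rw [← hD a, peel_a, coeff_X_pow_mul'] at hr
      split_ifs at hr with hle
      · have h4 := hc.1 a _ hr
        have h5 : w.take r = w.take (r - (x b).length) ++ x b := by
          conv_lhs => rw [← Nat.sub_add_cancel hle]
          rw [List.take_add]
          congr 1
          obtain ⟨v, hv⟩ := h4
          rw [← hv, ht, List.append_assoc, List.take_left]
        rw [h5]
        exact List.suffix_append _ _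
      · exact absurd rfl hr
    obtain ⟨D0, hD0, hD0'⟩ := hU.uni w0 _ (peel_cyc hab ht hc0)
    have hD00 : D0 ≠ 0 := by
      rintro rfl
      obtain ⟨i, hi⟩ := peel_ne_zero hab (x b).length hc0'
      exact hi (by rw [hD0 i, zero_mul])
    obtain ⟨g, hg1, hg2, hg3, hg4⟩ := exists_g hD0' h2 (h3 w0 c0 D0 hc0 hD0) hD00 hpa
    set q0 := (p a).natTrailingDegree with hq0
    -- the new cycle
    set m := (x b).length - g.length with hm
    have hmq : m ≤ q0 := by omega
    have hdiv : (X ^ m : ℤ[X]) ∣ p a := by
      rw [X_pow_dvd_iff]
      intro d hd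
      by_contra h4
      have := trail_le h4
      omega
    obtain ⟨pa, hpa'⟩ := hdiv
    have hpac : ∀ q, pa.coeff q = (p a).coeff (q + m) := by
      intro q
      rw [hpa', coeff_X_pow_mul]
    set p' : ι → ℤ[X] := Function.update (Function.update (fun i => X ^ g.length * p i) b
      (X ^ g.length * p b - pa)) a pa with hp'
    have hp'a : p' a = pa := by
      rw [hp', Function.update_self]
    have hp'b : p' b = X ^ g.length * p b - pa := by
      rw [hp', Function.update_of_ne hab.symm, Function.update_self]
    have hp'i : ∀ i, i ≠ a → i ≠ b → p' i = X ^ g.length * p i := by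
      intro i hia hib
      rw [hp', Function.update_of_ne hia, Function.update_of_ne hib]
    have hpeel : ∀ i, peel a b (x b).length p' i = X ^ g.length * p i := by
      intro i
      rcases eq_or_ne i a with rfl | hia
      · rw [peel_a, hp'a, hpa', ← mul_assoc, ← pow_add]
        congr 2
        omega
      rcases eq_or_ne i b with rfl | hib
      · rw [peel_b hab, hp'b, hp'a, sub_add_cancel]
      · rw [peel_ne hia hib, hp'i i hia hib]
    have hPl : (g ++ P).length = g.length + P.length := List.length_append
    -- occurrences of `x a`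
    have hocca : ∀ q, pa.coeff q ≠ 0 → Occ (x a) (g ++ P) q := by
      intro q hq
      rw [hpac] at hq
      have h4 := h2 _ hq
      rw [ht]
      have h5 : q + (x b).length = g.length + (q + m) := by omega
      apply occ_pre
      · rw [h5, List.take_length_add_append]
        exact hg4 _ hq
      · rw [h5, hPl]
        omega
      · rw [h5]
        have h6 := hU.cyc.1 a _ hq
        rw [hupa] at h6
        exact occ_app h6
    have hocc : ∀ i, i ≠ a → ∀ q, (X ^ g.length * p i).coeff q ≠ 0 → Occ (x i) (g ++ P) q := by
      intro i hia q hq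
      rw [coeff_X_pow_mul'] at hq
      split_ifs at hq with hle
      · have h4 := hU.cyc.1 i _ hq
        rw [hup i hia] at h4
        have h5 := occ_app (g := g) h4
        rwa [Nat.add_sub_cancel' hle] at h5
      · exact absurd rfl hq
    refine ⟨g ++ P, p', ⟨?_, ?_⟩, ?_, ?_, ?_, ?_⟩
    · intro i q hq
      rcases eq_or_ne i a with rfl | hia
      · rw [hp'a] at hq
        exact hocca q hq
      rcases eq_or_ne i b with rfl | hib
      · rw [hp'b, coeff_sub] at hq
        rcases eq_or_ne ((X ^ g.length * p i).coeff q) 0 with h4 | h4
        · rw [h4, zero_sub, neg_ne_zero] at hq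
          have h5 := hocca q hq
          unfold Occ at h5 ⊢
          rw [ht] at h5
          exact (List.prefix_append _ _).trans h5
        · exact hocc i hia q h4
      · rw [hp'i i hia hib] at hq
        exact hocc i hia q hq
    · rw [← peel_sum hab ht]
      have h4 : ∀ i, peel a b (x b).length p' i * (1 - X ^ (Function.update x a t i).length) =
          X ^ g.length * (p i * (1 - X ^ (Function.update x a t i).length)) := by
        intro i
        rw [hpeel, mul_assoc]
      rw [Finset.sum_congr rfl fun i _ => h4 i, ← Finset.mul_sum, hU.cyc.2, mul_zero]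
    · by_contra hcon
      push Not at hcon
      obtain ⟨i, hi⟩ := hU.kap
      apply hi
      have ha := hcon a
      have hb := hcon b
      rw [hp'a] at ha
      rw [hp'b, eval_sub, eval_mul, eval_pow, eval_X, one_pow, one_mul, ha, sub_zero] at hb
      rcases eq_or_ne i a with rfl | hia
      · rw [hpa', eval_mul, ha, mul_zero]
      rcases eq_or_ne i b with rfl | hib
      · exact hb
      · have := hcon i
        rwa [hp'i i hia hib, eval_mul, eval_pow, eval_X, one_pow, one_mul] at this
    · rcases Nat.eq_zero_or_pos g.length with hg0 | hg0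
      · obtain ⟨i, hi⟩ := hU.bot
        have hpi : (peel a b (x b).length p' i).coeff 0 ≠ 0 := by
          rwa [hpeel, hg0, pow_zero, one_mul]
        rcases eq_or_ne i a with rfl | hia
        · rw [peel_a, coeff_X_pow_mul', if_neg (by have := hxl b; omega)] at hpi
          exact absurd rfl hpi
        rcases eq_or_ne i b with rfl | hib
        · rw [peel_b hab, coeff_add] at hpi
          rcases eq_or_ne ((p' i).coeff 0) 0 with h4 | h4
          · rw [h4, zero_add] at hpi
            exact ⟨a, hpi⟩
          · exact ⟨i, h4⟩
        · rw [peel_ne hia hib] at hpi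
          exact ⟨i, hpi⟩
      · refine ⟨a, ?_⟩
        have h4 := hg3 (List.length_pos_iff.1 hg0)
        have h5 := congrArg List.length h4
        rw [List.length_append, List.length_take, min_eq_left (h2 _ (trail_ne hpa)).le] at h5
        rw [hp'a, hpac]
        have h6 : 0 + m = q0 := by omega
        rw [h6]
        exact trail_ne hpa
    · obtain ⟨i, h4, h5⟩ := hU.top
      rcases eq_or_ne i a with rfl | hia
      · rw [hupa] at h4 h5
        have h6 := trail_le h5
        refine ⟨i, ?_, ?_⟩
        · rw [hPl]
          omega
        · rw [hp'a, hpac, hPl]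
          have h7 : g.length + P.length - (x i).length + m = P.length - t.length := by omega
          rwa [h7]
      rcases eq_or_ne i b with rfl | hib
      · rw [hup i hia] at h4 h5
        refine ⟨i, ?_, ?_⟩
        · rw [hPl]
          omega
        · rw [hp'b, coeff_sub, hPl]
          have h6 : pa.coeff (g.length + P.length - (x i).length) = 0 := by
            by_contra h7
            have h8 := (hocca _ h7).length_le
            rw [List.length_drop, hPl] at h8
            omega
          have h7 : g.length + P.length - (x i).length =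
              (P.length - (x i).length) + g.length := by omega
          rw [h6, sub_zero, h7, coeff_X_pow_mul]
          exact h5
      · rw [hup i hia] at h4 h5
        refine ⟨i, ?_, ?_⟩
        · rw [hPl]
          omega
        · have h7 : g.length + P.length - (x i).length =
              (P.length - (x i).length) + g.length := by omega
          rw [hp'i i hia hib, hPl, h7, coeff_X_pow_mul]
          exact h5
    · intro w c hc
      obtain ⟨D', hD1, hD2⟩ := hU.uni w _ (peel_cyc hab ht hc)
      have h4 := preceded hD2 h2 (h3 w c D' hc hD1) hpa hg3 hg4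
      have hdiv : (X ^ g.length : ℤ[X]) ∣ D' := by
        rw [X_pow_dvd_iff]
        intro d hd
        by_contra h5
        have h6 := (h4 d h5).length_le
        rw [List.length_take] at h6
        omega
      obtain ⟨D, rfl⟩ := hdiv
      refine ⟨D, ?_, ?_⟩
      · have h5 : peel a b (x b).length c = peel a b (x b).length (fun i => D * p' i) := by
          rw [peel_smul hab]
          ext1 i
          rw [hD1 i, hpeel]
          ring
        have h6 := peel_inj hab _ h5
        intro i
        exact congrFun h6 i
      · intro s hs
        have h5 : (X ^ g.length * D).coeff (s + g.length) ≠ 0 := by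
          rwa [coeff_X_pow_mul]
        have h6 := h4 _ h5
        have h7 := hD2 _ h5
        by_cases h8 : s + g.length ≤ w.length
        · exact occ_pre h6 h8 h7
        · exfalso
          have h9 := h7.length_le
          rw [List.length_drop] at h9
          have := h2 _ (trail_ne hpa)
          omega

end Pool.Agent.H.MP_48f3d1_lc.Cyc
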