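import Pool.Agent.H.MP_48f3d1_lc.Cyc.Hull

/-! Words whose free hull has rank at least the number of words minus one. -/

namespace Pool.Agent.H.MP_48f3d1_lc

open Pool.Agent.H.MP_48f3d1_lc.Lin (flat flat_nil flat_cons flat_append flat_single val
  val_append val_cons val_nil lift_flat hom_flat)

namespace Cyc

open Polynomial in
theorem chain_inj {ι σ : Type} [DecidableEq ι] {x : ι → List σ} (hx : ∀ i, x i ≠ []) :
    ∀ u v : List ι, (∀ i, chain x u i = chain x v i) → u = v := by
  intro u
  induction u with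
  | nil =>
    intro v h
    rcases v with _ | ⟨b, v⟩
    · rfl
    · have h1 := congrArg (fun r : ℤ[X] => r.coeff 0) (h b)
      simp only [chain_nil] at h1
      rw [chain_zero x hx, if_pos rfl, coeff_zero] at h1
      exact absurd h1 (by norm_num)
  | cons a u ih =>
    intro v h
    rcases v with _ | ⟨b, v⟩
    · have h1 := congrArg (fun r : ℤ[X] => r.coeff 0) (h a)
      simp only [chain_nil] at h1
      rw [chain_zero x hx, if_pos rfl, coeff_zero] at h1
      exact absurd h1 (by norm_num)
    · have hab : a = b := by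
        by_contra hab
        have h1 := congrArg (fun r : ℤ[X] => r.coeff 0) (h a)
        rw [chain_zero x hx, chain_zero x hx, if_pos rfl, if_neg hab] at h1
        exact absurd h1 (by norm_num)
      subst hab
      rw [ih v]
      intro i
      have h1 := h i
      rw [chain_cons, chain_cons] at h1
      exact mul_left_cancel₀ (pow_ne_zero _ X_ne_zero) (add_left_cancel h1)

/-- `n` nonempty words of rank at least `n - 1` with a nontrivial relation have an unbalanced
relation -/
theorem unbalanced {ι κ : Type} [Fintype ι] (θ : ι → FreeMonoid κ) (hne : ∀ i, θ i ≠ 1)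
    (hr : RankGE (Fintype.card ι - 1) θ) {e : FreeMonoid ι × FreeMonoid ι} (he : e ∈ rel θ)
    (hne' : e.1 ≠ e.2) : ∃ e' ∈ rel θ, diff e' ≠ 0 := by
  classical
  set x : ι → List κ := fun i => FreeMonoid.toList (θ i) with hx'
  have hx : ∀ i, x i ≠ [] := fun i h => hne i h
  have hlift : ∀ w : FreeMonoid ι, FreeMonoid.lift θ w =
      FreeMonoid.ofList (flat x (FreeMonoid.toList w)) := by
    intro w
    have h1 := hom_flat (FreeMonoid.lift θ) (FreeMonoid.toList w)
    rw [FreeMonoid.ofList_toList] at h1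
    rw [h1]
    congr 2
  have hsub : sub x Finset.univ = grp θ := by
    unfold sub grp
    congr 1
    rw [Finset.coe_univ, Set.image_univ]
    congr 1
    ext1 i
    exact val_emb (θ i)
  have hrel : flat x (FreeMonoid.toList e.1) = flat x (FreeMonoid.toList e.2) := by
    have h1 : FreeMonoid.lift θ e.1 = FreeMonoid.lift θ e.2 := he
    rw [hlift, hlift] at h1
    exact FreeMonoid.ofList.injective h1
  have hc := chain_cyc hrel
  have hc0 : ∃ i, chain x (FreeMonoid.toList e.1) i - chain x (FreeMonoid.toList e.2) i ≠ 0 := by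
    by_contra hcon
    push Not at hcon
    apply hne'
    apply FreeMonoid.toList.injective
    apply chain_inj hx
    intro i
    exact sub_eq_zero.1 (hcon i)
  obtain ⟨P, p, hU⟩ := exists_uni _ x _ _ le_rfl hx (by
    intro T hT
    rw [hsub] at hT
    exact hr T hT) hc hc0
  obtain ⟨u, v, h1, i, h2⟩ := unbalanced_of_uni x hx hU
    (fun h => hne' (FreeMonoid.toList.injective h)) hrel
  refine ⟨(FreeMonoid.ofList u, FreeMonoid.ofList v), ?_, ?_⟩
  · show FreeMonoid.lift θ _ = FreeMonoid.lift θ _
    rw [hlift, hlift, FreeMonoid.toList_ofList, FreeMonoid.toList_ofList, h1]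
  · intro h3
    apply h2
    have h4 := congrFun h3 i
    unfold diff parikh at h4
    rw [Pi.sub_apply, Pi.zero_apply, FreeMonoid.toList_ofList, FreeMonoid.toList_ofList,
      sub_eq_zero] at h4
    have h5 : (List.count i u : ℚ) = List.count i v := by
      convert h4
    exact_mod_cast h5

/-- coordinates in the free hull -/
theorem coord {ι σ : Type} [Fintype ι] {d : ℕ} (X : ι → FreeMonoid σ) (hX : ∀ i, X i ≠ 1)
    (hr : HullGE d X) :
    ∃ (κ : Type) (θ : ι → FreeMonoid κ) (Y : κ → FreeMonoid σ),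
      Function.Injective (FreeMonoid.lift Y) ∧ (∀ i, FreeMonoid.lift Y (θ i) = X i) ∧
      RankGE d θ := by
  classical
  obtain ⟨κ, hκ, θ, Y, h1, h2, h3, h4⟩ := hull X hX
  refine ⟨κ, θ, Y, h1, h2, ?_⟩
  have hd : d ≤ Fintype.card κ := by
    have hcl : Submonoid.closure ((Finset.univ.image Y : Finset (FreeMonoid σ)) :
        Set (FreeMonoid σ)) = MonoidHom.mrange (FreeMonoid.lift Y) := by
      rw [Finset.coe_image, Finset.coe_univ, Set.image_univ, FreeMonoid.mrange_lift]
    have h5 := hr (Finset.univ.image Y) (by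
      rw [hcl]
      refine ⟨⟨κ, _, h1, rfl⟩, fun i => ⟨θ i, h2 i⟩, ?_⟩
      intro M hM h6
      rw [← hcl, Submonoid.closure_le, Finset.coe_image, Finset.coe_univ, Set.image_univ]
      rintro _ ⟨k, rfl⟩
      exact h3 M hM h6 k)
    exact h5.trans Finset.card_image_le
  have hof : RankGE (Fintype.card κ) (fun k : κ => FreeMonoid.of k) := by
    apply rank_of_parikh
    have h6 : (Set.range fun k : κ => parikh (FreeMonoid.of k)) =
        Set.range fun k : κ => (Pi.single k 1 : κ → ℚ) := by
      congr 1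
      ext k j
      unfold parikh
      rw [FreeMonoid.toList_of, List.count_singleton]
      by_cases h : j = k
      · subst h
        simp
      · rw [Pi.single_eq_of_ne h]
        simp [Ne.symm h]
    have h7 : Submodule.span ℚ (Set.range fun k : κ => (Pi.single k 1 : κ → ℚ)) = ⊤ := by
      have h8 := (Pi.basisFun ℚ κ).span_eq
      rw [← h8]
      congr 2
    rw [h6, h7, finrank_top, Module.finrank_fintype_fun_eq_card]
  intro T hT
  have h5 : grp (fun k : κ => FreeMonoid.of k) = ⊤ := by
    unfold grp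
    rw [← FreeGroup.closure_range_of]
    congr 1
  exact hd.trans (hof T (by rw [hT, h4, h5]))

theorem rel_coord {ι κ σ : Type} {X : ι → FreeMonoid σ} {θ : ι → FreeMonoid κ}
    {Y : κ → FreeMonoid σ} (h1 : Function.Injective (FreeMonoid.lift Y))
    (h2 : ∀ i, FreeMonoid.lift Y (θ i) = X i) (u v : FreeMonoid ι) :
    FreeMonoid.lift X u = FreeMonoid.lift X v ↔ FreeMonoid.lift θ u = FreeMonoid.lift θ v := by
  have h3 : (FreeMonoid.lift Y).comp (FreeMonoid.lift θ) = FreeMonoid.lift X := by
    apply FreeMonoid.hom_eq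
    intro i
    simp [h2]
  rw [← h3]
  exact h1.eq_iff

/-- the full rank criterion for the rank of the free hull -/
theorem full_hull {ι σ : Type} [Fintype ι] (S : Set (FreeMonoid ι × FreeMonoid ι))
    (X : ι → FreeMonoid σ) (hne : ∀ i, X i ≠ 1) (hX : IsSol S (FreeMonoid.lift X))
    (hr : HullGE (corank S) X) (τ : Type) : Equivalent τ S (rel X) := by
  obtain ⟨κ, θ, Y, h1, h2, h3⟩ := coord X hne hr
  have hrc := rel_coord h1 h2
  intro h
  constructor
  · intro hh e he
    exact full S θ (fun e he => (hrc _ _).1 (hX e he)) h3 h hh e.1 e.2 ((hrc _ _).1 he)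
  · intro hh e he
    exact hh e (hX e he)

theorem corank_le {ι : Type} [Fintype ι] {S : Set (FreeMonoid ι × FreeMonoid ι)}
    {e : FreeMonoid ι × FreeMonoid ι} (he : e ∈ S) (hd : diff e ≠ 0) :
    corank S ≤ Fintype.card ι - 1 := by
  unfold corank
  have h1 : 0 < Module.finrank ℚ (Submodule.span ℚ (diff '' S)) := by
    rw [Module.finrank_pos_iff_exists_ne_zero]
    exact ⟨⟨diff e, Submodule.subset_span ⟨e, he, rfl⟩⟩, fun h => hd (congrArg Subtype.val h)⟩
  omega

theorem HullGE.mono {ι σ : Type} {d d' : ℕ} {X : ι → FreeMonoid σ} (h : HullGE d' X)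
    (hd : d ≤ d') : HullGE d X := fun T hT => hd.trans (h T hT)

/-- the unbalanced relation, for the rank of the free hull -/
theorem unbalanced_hull {ι σ : Type} [Fintype ι] (X : ι → FreeMonoid σ) (hne : ∀ i, X i ≠ 1)
    (hr : HullGE (Fintype.card ι - 1) X) {e : FreeMonoid ι × FreeMonoid ι} (he : e ∈ rel X)
    (hne' : e.1 ≠ e.2) : ∃ e' ∈ rel X, diff e' ≠ 0 := by
  obtain ⟨κ, θ, Y, h1, h2, h3⟩ := coord X hne hr
  have hrc := rel_coord h1 h2
  obtain ⟨e', h4, h5⟩ := unbalanced θ (fun i hi => hne i (by rw [← h2 i, hi, map_one])) h3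
    ((hrc _ _).1 he) hne'
  exact ⟨e', (hrc _ _).2 h4, h5⟩

/-- an unbalanced equation is not a consequence of balanced equations -/
theorem not_consequence {ι σ : Type} [Fintype ι] (a : σ) {S : Set (FreeMonoid ι × FreeMonoid ι)}
    (hS : ∀ e ∈ S, diff e = 0) {e : FreeMonoid ι × FreeMonoid ι}
    (h : ∀ h : FreeMonoid ι →* FreeMonoid σ, IsSol S h → h e.1 = h e.2) : diff e = 0 := by
  classical
  by_contra hcon
  obtain ⟨i, hi⟩ := Function.ne_iff.1 hcon
  have hlen : ∀ w : FreeMonoid ι, (len (fun j => if j = i then 1 else 0) w : ℚ) = parikh w i := by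
    intro w
    rw [len_eq]
    simp
  have hpow : ∀ n : ℕ, (FreeMonoid.of a ^ n).length = n := by
    intro n
    induction n with
    | zero => simp
    | succ n ih => rw [pow_succ, FreeMonoid.length_mul, ih, FreeMonoid.length_of]
  have h1 := h (FreeMonoid.lift fun j => FreeMonoid.of a ^ (if j = i then 1 else 0)) (by
    intro e' he'
    rw [one_letter, one_letter]
    congr 1
    have h2 := congrFun (hS e' he') i
    unfold diff at h2
    rw [Pi.sub_apply, Pi.zero_apply, sub_eq_zero, ← hlen, ← hlen] at h2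
    exact_mod_cast h2)
  rw [one_letter, one_letter] at h1
  have h2 := congrArg FreeMonoid.length h1
  rw [hpow, hpow] at h2
  apply hi
  unfold diff
  rw [Pi.sub_apply, Pi.zero_apply, sub_eq_zero, ← hlen, ← hlen, h2]

/-- words which generate a subgroup of rank at least `d` have a free hull of rank at least `d` -/
theorem hullGE_of_rankGE {ι σ : Type} [Fintype ι] {d : ℕ} (X : ι → FreeMonoid σ)
    (hX : ∀ i, X i ≠ 1) (hr : RankGE d X) : HullGE d X := by
  classical
  obtain ⟨κ, hκ, θ, Y, h1, h2, h3, h4⟩ := hull X hX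
  intro T hT
  refine (hr (T.image (emb σ)) ?_).trans Finset.card_image_le
  rw [Finset.coe_image]
  apply le_antisymm
  · refine (Subgroup.closure_le _).2 ?_
    rintro _ ⟨t, ht, rfl⟩
    -- `t` is in the hull, hence a product of the words `Y k`
    have h5 : t ∈ MonoidHom.mrange (FreeMonoid.lift Y) :=
      hT.2.2 _ ⟨κ, _, h1, rfl⟩ (fun i => ⟨θ i, h2 i⟩) (Submonoid.subset_closure ht)
    obtain ⟨s, rfl⟩ := h5
    rw [← gh_emb]
    have h6 : emb κ s ∈ grp θ := by
      rw [h4]
      trivial
    have h7 : Subgroup.map (gh Y) (grp θ) ≤ grp X := by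
      unfold grp
      rw [MonoidHom.map_closure]
      refine (Subgroup.closure_le _).2 ?_
      rintro _ ⟨_, ⟨i, rfl⟩, rfl⟩
      have h8 : gh Y (emb κ (θ i)) = emb σ (X i) := by rw [gh_emb, h2]
      change gh Y (emb κ (θ i)) ∈ _
      rw [h8]
      exact Subgroup.subset_closure ⟨i, rfl⟩
    exact h7 (Subgroup.mem_map_of_mem _ h6)
  · unfold grp
    refine (Subgroup.closure_le _).2 ?_
    rintro _ ⟨i, rfl⟩
    have h5 : Submonoid.closure (T : Set (FreeMonoid σ)) ≤
        (Subgroup.closure (emb σ '' (T : Set (FreeMonoid σ)))).toSubmonoid.comap (emb σ) := by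
      rw [Submonoid.closure_le]
      intro t ht
      exact Subgroup.subset_closure ⟨t, ht, rfl⟩
    exact h5 (hT.2.1 i)

end Cyc

end Pool.Agent.H.MP_48f3d1_lc
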