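import Pool.Agent.H.MP_48f3d1_lc.Cyc.Basic

/-! Words: powers, periods and primitive words. -/

namespace Pool.Agent.H.MP_48f3d1_lc.Cyc

variable {σ : Type}

theorem pw_zero (u : List σ) : pw u 0 = [] := rfl

theorem pw_succ (u : List σ) (n : ℕ) : pw u (n + 1) = u ++ pw u n := rfl

theorem pw_one (u : List σ) : pw u 1 = u := by
  rw [pw_succ, pw_zero, List.append_nil]

theorem length_pw (u : List σ) (n : ℕ) : (pw u n).length = n * u.length := by
  induction n with
  | zero => simp [pw]
  | succ n ih =>
    rw [pw_succ, List.length_append, ih]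
    ring

theorem pw_add (u : List σ) (m n : ℕ) : pw u (m + n) = pw u m ++ pw u n := by
  induction m with
  | zero => rw [Nat.zero_add, pw_zero, List.nil_append]
  | succ m ih => rw [Nat.succ_add, pw_succ, pw_succ, ih, List.append_assoc]

theorem pw_mul (u : List σ) (m n : ℕ) : pw u (m * n) = pw (pw u m) n := by
  induction n with
  | zero => rw [Nat.mul_zero, pw_zero, pw_zero]
  | succ n ih => rw [Nat.mul_succ, Nat.add_comm, pw_add, ih, pw_succ]

theorem pw_comm {u v : List σ} (h : u ++ v = v ++ u) (n : ℕ) : pw u n ++ v = v ++ pw u n := by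
  induction n with
  | zero => rw [pw_zero, List.nil_append, List.append_nil]
  | succ n ih =>
    rw [pw_succ, List.append_assoc, ih, ← List.append_assoc, h, List.append_assoc]

theorem pw_prefix (u : List σ) {m n : ℕ} (h : m ≤ n) : pw u m <+: pw u n := by
  obtain ⟨k, rfl⟩ := Nat.exists_eq_add_of_le h
  rw [pw_add]
  exact List.prefix_append _ _

theorem pw_suffix (u : List σ) {m n : ℕ} (h : m ≤ n) : pw u m <:+ pw u n := by
  obtain ⟨k, rfl⟩ := Nat.exists_eq_add_of_le h
  rw [Nat.add_comm, pw_add]
  exact List.suffix_append _ _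

theorem drop_pw (u : List σ) {m n : ℕ} (h : m ≤ n) :
    (pw u n).drop (m * u.length) = pw u (n - m) := by
  obtain ⟨k, rfl⟩ := Nat.exists_eq_add_of_le h
  rw [pw_add, ← length_pw, List.drop_left, Nat.add_sub_cancel_left]

/-- prefixes of the same word -/
theorem prefix_of {a b w : List σ} (ha : a <+: w) (hb : b <+: w) (h : a.length ≤ b.length) :
    a <+: b := List.prefix_of_prefix_length_le ha hb h

/-- suffixes of the same word -/
theorem suffix_of {a b w : List σ} (ha : a <:+ w) (hb : b <:+ w) (h : a.length ≤ b.length) :
    a <:+ b := List.suffix_of_suffix_length_le ha hb h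

/-- a prefix of `u ^ ∞` whose length is a multiple of the length of `u` -/
theorem eq_pw {u v : List σ} {N i : ℕ} (h : v <+: pw u N) (hl : v.length = i * u.length)
    (hu : u ≠ []) : v = pw u i := by
  have h1 := h.length_le
  rw [length_pw, hl] at h1
  have hp : 0 < u.length := List.length_pos_of_ne_nil hu
  have h2 : i ≤ N := Nat.le_of_mul_le_mul_right h1 hp
  exact (prefix_of h (pw_prefix u h2) (by rw [hl, length_pw])).eq_of_length
    (by rw [hl, length_pw])

/-- a word with a period -/
theorem per {u v : List σ} (hu : u ≠ []) (h : v <+: u ++ v) : ∃ N, v <+: pw u N := by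
  have h1 : ∀ n, v <+: pw u n ++ v := by
    intro n
    induction n with
    | zero =>
      rw [pw_zero, List.nil_append]
    | succ n ih =>
      rw [pw_succ, List.append_assoc]
      exact h.trans ((List.prefix_append_right_inj u).2 ih)
  refine ⟨v.length, prefix_of (h1 v.length) (List.prefix_append _ _) ?_⟩
  rw [length_pw]
  exact Nat.le_mul_of_pos_right _ (List.length_pos_of_ne_nil hu)

/-- a word with a period, from the right -/
theorem per' {u v : List σ} (hu : u ≠ []) (h : v <:+ v ++ u) : ∃ N, v <:+ pw u N := by
  have h1 : ∀ n, v <:+ v ++ pw u n := by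
    intro n
    induction n with
    | zero =>
      rw [pw_zero, List.append_nil]
    | succ n ih =>
      rw [pw_succ, ← pw_comm (rfl : u ++ u = u ++ u) n, ← List.append_assoc]
      obtain ⟨t, ht⟩ := ih
      exact h.trans ⟨t, by rw [← List.append_assoc, ht]⟩
  refine ⟨v.length, suffix_of (h1 v.length) (List.suffix_append _ _) ?_⟩
  rw [length_pw]
  exact Nat.le_mul_of_pos_right _ (List.length_pos_of_ne_nil hu)

/-- the two lemmas on commuting words -/
theorem W1 {k l : List σ} (h : l <+: k) (h' : k <:+ k ++ l) : k ++ l = l ++ k := by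
  obtain ⟨t, ht⟩ := h'
  have h1 : t.length = l.length := by
    have := congrArg List.length ht
    rw [List.length_append, List.length_append] at this
    omega
  have h2 : t = l := by
    have h3 : t <+: k ++ l := ⟨k, ht⟩
    have h4 : l <+: k ++ l := h.trans (List.prefix_append _ _)
    exact (prefix_of h3 h4 h1.le).eq_of_length h1
  rw [← ht, h2]

theorem W2 {x k l : List σ} (hl : l ≠ []) (h : x <:+ x ++ l) (hc : k ++ l = l ++ k) :
    x <:+ x ++ k := by
  obtain ⟨N, hN⟩ := per' hl h
  have h1 : x ++ k <:+ pw l N ++ k := by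
    obtain ⟨t, ht⟩ := hN
    exact ⟨t, by rw [← List.append_assoc, ht]⟩
  rw [pw_comm hc.symm] at h1
  exact suffix_of (hN.trans (List.suffix_append _ _)) h1 (by simp)

/-- commuting words are powers of the same word -/
theorem comm_pw : ∀ (n : ℕ) (u v : List σ), u.length + v.length ≤ n → u ++ v = v ++ u →
    ∃ z i j, u = pw z i ∧ v = pw z j := by
  intro n
  induction n with
  | zero =>
    intro u v hn _
    have h1 : u = [] := List.length_eq_zero_iff.1 (by omega)
    have h2 : v = [] := List.length_eq_zero_iff.1 (by omega)
    exact ⟨[], 0, 0, by rw [h1, pw_zero], by rw [h2, pw_zero]⟩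
  | succ n ih =>
    intro u v hn h
    rcases eq_or_ne u [] with hu | hu
    · exact ⟨v, 0, 1, by rw [hu, pw_zero], by rw [pw_one]⟩
    rcases eq_or_ne v [] with hv | hv
    · exact ⟨u, 1, 0, by rw [pw_one], by rw [hv, pw_zero]⟩
    have hu' := List.length_pos_of_ne_nil hu
    have hv' := List.length_pos_of_ne_nil hv
    rcases Nat.le_total u.length v.length with hl | hl
    · obtain ⟨t, rfl⟩ := prefix_of ⟨v, rfl⟩ (h ▸ ⟨u, rfl⟩ : v <+: u ++ v) hl
      rw [List.append_assoc] at h
      have h1 := List.append_cancel_left h
      rw [List.length_append] at hn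
      obtain ⟨z, i, j, h2, h3⟩ := ih u t (by omega) h1
      exact ⟨z, i, i + j, h2, by rw [pw_add, ← h2, ← h3]⟩
    · obtain ⟨t, rfl⟩ := prefix_of (⟨u, rfl⟩ : v <+: v ++ u) (h ▸ ⟨v, rfl⟩ : u <+: v ++ u) hl
      rw [List.append_assoc] at h
      have h1 := List.append_cancel_left h
      rw [List.length_append] at hn
      obtain ⟨z, i, j, h2, h3⟩ := ih t v (by omega) h1
      exact ⟨z, j + i, j, by rw [pw_add, ← h2, ← h3], h3⟩

/-- the primitive root -/
theorem prim_root {k : List σ} (hk : k ≠ []) : ∃ z A, Prim z ∧ k = pw z A := by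
  classical
  have h1 : ∃ n, ∃ z A, z ≠ [] ∧ k = pw z A ∧ z.length = n :=
    ⟨_, k, 1, hk, (pw_one k).symm, rfl⟩
  obtain ⟨z, A, hz, hkz, hn⟩ := Nat.find_spec h1
  have hmin := fun m => @Nat.find_min _ _ h1 m
  refine ⟨z, A, ⟨hz, ?_⟩, hkz⟩
  intro r hr hr0 hc
  obtain ⟨y, i, j, hy, hy'⟩ := comm_pw _ z r le_rfl hc
  by_contra hne
  have hy0 : y ≠ [] := by
    rintro rfl
    apply hz
    rw [hy]
    exact List.length_eq_zero_iff.1 (by rw [length_pw, List.length_nil, Nat.mul_zero])
  have hlt : r.length < z.length := by
    rcases Nat.lt_or_ge r.length z.length with h | h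
    · exact h
    · exact absurd (hr.eq_of_length (le_antisymm hr.length_le h)) hne
  have hyr : y.length ≤ r.length := by
    rw [hy', length_pw]
    rcases Nat.eq_zero_or_pos j with h0 | h0
    · exfalso
      apply hr0
      rw [hy', h0, pw_zero]
    · exact Nat.le_mul_of_pos_left _ h0
  exact hmin y.length (by omega) ⟨y, i * A, hy0, by rw [hkz, hy, ← pw_mul], rfl⟩

/-- a primitive word occurs in its powers only at multiples of its length -/
theorem prim_occ {z : List σ} (hz : Prim z) {N s : ℕ} (h : Occ z (pw z N) s) :
    z.length ∣ s := by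
  obtain ⟨hz0, hz1⟩ := hz
  have hp := List.length_pos_of_ne_nil hz0
  have hlen : s + z.length ≤ N * z.length := by
    have h1 := h.length_le
    rw [List.length_drop, length_pw] at h1
    omega
  by_contra hdvd
  set e := z.length with he
  set q := s / e with hq
  set r := s % e with hr
  have hr0 : r ≠ 0 := fun h0 => hdvd (Nat.dvd_of_mod_eq_zero h0)
  have hre : r < e := Nat.mod_lt _ hp
  have hs : s = q * e + r := by
    rw [hq, hr, Nat.mul_comm]
    exact (Nat.div_add_mod s e).symm
  have hqN : q + 2 ≤ N := by
    by_contra hcon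
    have h2 : N ≤ q + 1 := by omega
    have h3 : N * e ≤ (q + 1) * e := Nat.mul_le_mul_right _ h2
    have h4 : (q + 1) * e = q * e + e := by ring
    omega
  -- the word at `s`
  have h1 : z <+: (pw z (N - q)).drop r := by
    have h2 : (pw z N).drop s = (pw z (N - q)).drop r := by
      rw [hs, ← List.drop_drop, drop_pw z (by omega)]
    unfold Occ at h
    rwa [h2] at h
  have h2 : z <+: z.drop r ++ z.take r := by
    have h3 : z.drop r ++ z.take r <+: (pw z (N - q)).drop r := by
      have h4 : z ++ z <+: pw z (N - q) := by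
        have h5 : z ++ z = pw z 2 := by
          rw [pw_succ, pw_one]
        rw [h5]
        exact pw_prefix z (by omega)
      have h5 : z.drop r ++ z <+: (pw z (N - q)).drop r := by
        have h6 := h4.drop r
        rwa [List.drop_append_of_le_length (by omega)] at h6
      exact ((List.prefix_append_right_inj _).2 (List.take_prefix r z)).trans h5
    exact prefix_of h1 h3 (by simp; omega)
  have h3 : z = z.drop r ++ z.take r := h2.eq_of_length (by simp; omega)
  have h4 := hz1 (z.take r) (List.take_prefix _ _) (by
    intro h0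
    have := congrArg List.length h0
    rw [List.length_take, List.length_nil] at this
    omega) (by
    have h4 : z.take r ++ (z.drop r ++ z.take r) = z ++ z.take r := by
      rw [← List.append_assoc, List.take_append_drop]
    rw [← h4, ← h3])
  have h5 := congrArg List.length h4
  rw [List.length_take] at h5
  omega

/-- a nonempty prefix of a primitive word which is not the word itself does not commute with it -/
theorem prim_take {z : List σ} (hz : Prim z) {k : ℕ} (h0 : 0 < k) (hk : k < z.length) :
    z ++ z.take k ≠ z.take k ++ z := by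
  intro h
  have h1 := hz.2 (z.take k) (List.take_prefix _ _) (by
    intro h2
    have := congrArg List.length h2
    rw [List.length_take, List.length_nil] at this
    omega) h
  have h2 := congrArg List.length h1
  rw [List.length_take] at h2
  omega

end Pool.Agent.H.MP_48f3d1_lc.Cyc
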